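import Mathlib

/-!
Cyclotomic multiple zeta values of level `N` (definitions).
-/

set_option autoImplicit false

open Filter Topology

namespace Pool.Agent.TH981.AMZ

noncomputable section

/-- The truncated series
`∑_{M ≥ ℓ₁ > ... > ℓ_n > 0} z₁^{ℓ₁} ⋯ z_n^{ℓ_n} / (ℓ₁^{a₁} ⋯ ℓ_n^{a_n})` of the word
`[(a₁, z₁), ..., (a_n, z_n)]`; here `ℓ₁ = k + 1` and `ℓ₂ ≤ k`. The empty word has the value `1`. -/
def liTrunc : List (ℕ × ℂ) → ℕ → ℂ
  | [], _ => 1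
  | (a, z) :: l, M =>
    ∑ k ∈ Finset.range M, z ^ (k + 1) / ((k + 1 : ℕ) : ℂ) ^ a * liTrunc l k

/-- The words of level `N` and weight `w` whose series converges: nonempty, all `a_j ≥ 1`, all
`z_j^N = 1`, `a₁ + ... + a_n = w` and `(a₁, z₁) ≠ (1, 1)`. -/
def Adm (N w : ℕ) (l : List (ℕ × ℂ)) : Prop :=
  l ≠ [] ∧ (∀ p ∈ l, 0 < p.1 ∧ p.2 ^ N = 1) ∧ (l.map Prod.fst).sum = w ∧ l.head? ≠ some (1, 1)

/-- `𝔷_w(N)`: the `ℚ`-subspace of `ℂ` spanned by the values of the series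
`Li_{a₁, ..., a_n}(z₁, ..., z_n)` of the words of level `N` and weight `w`. -/
def Z (N w : ℕ) : Submodule ℚ ℂ :=
  Submodule.span ℚ {y | ∃ l, Adm N w l ∧ Tendsto (liTrunc l) atTop (𝓝 y)}

end

end Pool.Agent.TH981.AMZ
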