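import Mathlib
import Pool.Agent.TH981.AMZ.Defs

/-!
Multiple Clausen values (definitions).
-/

set_option autoImplicit false

open Filter Topology

namespace Pool.Agent.TH981.AMZ

noncomputable section

/-- `ω = e^(π i / 3)` -/
def om : ℂ := Complex.exp ((Real.pi / 3 : ℝ) * Complex.I)

/-- `ℭ_w`: the `ℚ`-subspace of `ℂ` spanned by the multiple Clausen values
`μ_{a₁, ..., a_n} = Li_{a₁, ..., a_n}(ω, 1, ..., 1)` of weight `a₁ + ... + a_n = w`, `n ≥ 1`, all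
`a_j ≥ 1` (here `a₁ = a` and `l = [a₂, ..., a_n]`). -/
def C (w : ℕ) : Submodule ℚ ℂ :=
  Submodule.span ℚ {y | ∃ (a : ℕ) (l : List ℕ), 0 < a ∧ (∀ b ∈ l, 0 < b) ∧ a + l.sum = w ∧
    Tendsto (liTrunc ((a, om) :: l.map (fun b => (b, (1 : ℂ))))) atTop (𝓝 y)}

end

end Pool.Agent.TH981.AMZ
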