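import Mathlib
import Pool.Agent.TH981.AMZ.CDefs

/-!
Shuffle products of multiple polylogarithms as formal power series.
-/

set_option autoImplicit false

open Filter Topology Finset PowerSeries

namespace Pool.Agent.TH981.AMZ

noncomputable section

/-- formal `∫ F dz / z` -/
def In : PowerSeries ℂ →ₗ[ℚ] PowerSeries ℂ where
  toFun F := PowerSeries.mk fun n => PowerSeries.coeff n F / (n : ℂ)
  map_add' F G := by
    ext n
    simp [add_div]
  map_smul' c F := by
    ext n
    simp only [PowerSeries.coeff_mk, RingHom.id_apply]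
    rw [show (c • F : PowerSeries ℂ) = ((c : ℂ)) • F by
      ext n; simp [Rat.smul_def]]
    rw [show (c • (PowerSeries.mk fun n => PowerSeries.coeff n F / (n : ℂ)) : PowerSeries ℂ) =
      ((c : ℂ)) • (PowerSeries.mk fun n => PowerSeries.coeff n F / (n : ℂ)) by
      ext n; simp [Rat.smul_def]]
    simp [mul_div_assoc]

theorem coeff_In (F : PowerSeries ℂ) (n : ℕ) :
    PowerSeries.coeff n (In F) = PowerSeries.coeff n F / (n : ℂ) := by
  simp [In]

theorem In_mul {F G : PowerSeries ℂ} (hF : PowerSeries.coeff 0 F = 0)
    (hG : PowerSeries.coeff 0 G = 0) :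
    In F * In G = In (F * In G + In F * G) := by
  ext n
  rw [coeff_In, map_add, PowerSeries.coeff_mul, PowerSeries.coeff_mul, PowerSeries.coeff_mul,
    ← sum_add_distrib]
  rcases Nat.eq_zero_or_pos n with rfl | hn
  · simp [coeff_In]
  · rw [eq_div_iff (by exact_mod_cast hn.ne'), sum_mul]
    apply sum_congr rfl
    rintro ⟨i, j⟩ hij
    rw [Finset.HasAntidiagonal.mem_antidiagonal] at hij
    simp only [coeff_In]
    simp only at hij
    rw [← hij]
    rcases Nat.eq_zero_or_pos i with rfl | hi
    · simp [hF]
    · rcases Nat.eq_zero_or_pos j with rfl | hj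
      · simp [hG]
      · have hi' : (i : ℂ) ≠ 0 := by exact_mod_cast hi.ne'
        have hj' : (j : ℂ) ≠ 0 := by exact_mod_cast hj.ne'
        push_cast
        field_simp

/-- the two forms: `1` and `z / (1 - z)` -/
def yv (a : Bool) : PowerSeries ℂ :=
  if a then PowerSeries.mk (fun n => if n = 0 then 0 else 1) else 1

/-- one step of the iterated integral -/
def Jn (a : Bool) : PowerSeries ℂ →ₗ[ℚ] PowerSeries ℂ :=
  In ∘ₗ (LinearMap.mulLeft ℚ (yv a))

theorem Jn_apply (a : Bool) (F : PowerSeries ℂ) : Jn a F = In (yv a * F) := rfl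

/-- the multiple polylogarithm of a binary word -/
def Lb : List Bool → PowerSeries ℂ
  | [] => 1
  | a :: u => Jn a (Lb u)

/-- words whose last letter is `true` -/
def Vd : List Bool → Prop
  | [] => True
  | a :: u => (u = [] → a = true) ∧ Vd u

theorem coeff_zero_Lb {u : List Bool} (hu : u ≠ []) : PowerSeries.coeff 0 (Lb u) = 0 := by
  cases u with
  | nil => exact absurd rfl hu
  | cons a u => simp [Lb, Jn_apply, coeff_In]

theorem coeff_zero_form {a : Bool} {u : List Bool} (h : Vd (a :: u)) :
    PowerSeries.coeff 0 (yv a * Lb u) = 0 := by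
  rw [PowerSeries.coeff_mul, Finset.HasAntidiagonal.antidiagonal_zero, sum_singleton]
  cases a with
  | true => simp [yv]
  | false =>
    have : u ≠ [] := by
      intro h0
      have := h.1 h0
      simp at this
    rw [coeff_zero_Lb this, mul_zero]

theorem Lb_mul_cons {a b : Bool} {u v : List Bool} (hu : Vd (a :: u)) (hv : Vd (b :: v)) :
    Lb (a :: u) * Lb (b :: v) = Jn a (Lb u * Lb (b :: v)) + Jn b (Lb (a :: u) * Lb v) := by
  have h := In_mul (coeff_zero_form hu) (coeff_zero_form hv)
  have e1 : Lb (a :: u) = In (yv a * Lb u) := rfl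
  have e2 : Lb (b :: v) = In (yv b * Lb v) := rfl
  rw [Jn_apply, Jn_apply, ← map_add, e1, e2, h]
  congr 1
  ring

/-- the span of the words of length `n` -/
def W (n : ℕ) : Submodule ℚ (PowerSeries ℂ) :=
  Submodule.span ℚ {F | ∃ u : List Bool, Vd u ∧ u.length = n ∧ F = Lb u}

theorem Jn_mem {n : ℕ} (hn : 1 ≤ n) (a : Bool) {F : PowerSeries ℂ} (hF : F ∈ W n) :
    Jn a F ∈ W (n + 1) := by
  have : W n ≤ (W (n + 1)).comap (Jn a) := by
    conv_lhs => rw [W]
    rw [Submodule.span_le]
    rintro F ⟨u, hu, hl, rfl⟩
    refine Submodule.subset_span ⟨a :: u, ⟨?_, hu⟩, by simp [hl], rfl⟩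
    rintro rfl
    simp at hl
    omega
  exact this hF

theorem mul_Lb (u : List Bool) (hu : Vd u) :
    ∀ v : List Bool, Vd v → Lb u * Lb v ∈ W (u.length + v.length) := by
  induction u with
  | nil =>
    intro v hv
    refine Submodule.subset_span ⟨v, hv, by simp, ?_⟩
    simp [Lb]
  | cons a u ih =>
    intro v hv
    induction v with
    | nil =>
      refine Submodule.subset_span ⟨a :: u, hu, by simp, ?_⟩
      simp [Lb]
    | cons b v ih2 =>
      rw [Lb_mul_cons hu hv]
      refine add_mem ?_ ?_
      · have h := Jn_mem (by simp only [List.length_cons]; omega) a (ih hu.2 (b :: v) hv)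
        have e : (a :: u).length + (b :: v).length = u.length + (b :: v).length + 1 := by
          simp only [List.length_cons]; omega
        rw [e]
        exact h
      · have h := Jn_mem (by simp only [List.length_cons]; omega) b (ih2 hv.2)
        have e : (a :: u).length + (b :: v).length = (a :: u).length + v.length + 1 := by
          simp only [List.length_cons]; omega
        rw [e]
        exact h

theorem mul_W {n m : ℕ} {F G : PowerSeries ℂ} (hF : F ∈ W n) (hG : G ∈ W m) :
    F * G ∈ W (n + m) := by
  induction hF using Submodule.span_induction with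
  | mem F h =>
    obtain ⟨u, hu, rfl, rfl⟩ := h
    induction hG using Submodule.span_induction with
    | mem G h =>
      obtain ⟨v, hv, rfl, rfl⟩ := h
      exact mul_Lb u hu v hv
    | zero => rw [mul_zero]; exact zero_mem _
    | add g g' _ _ h h' => rw [mul_add]; exact add_mem h h'
    | smul c g _ h => rw [mul_smul_comm]; exact Submodule.smul_mem _ _ h
  | zero => rw [zero_mul]; exact zero_mem _
  | add f f' _ _ h h' => rw [add_mul]; exact add_mem h h'
  | smul c f _ h => rw [smul_mul_assoc]; exact Submodule.smul_mem _ _ h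

end

end Pool.Agent.TH981.AMZ
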