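import Mathlib

/-!
Truncated sums with letters `(a, (-1)^a)` and their stuffle products.
-/

set_option autoImplicit false

open Filter Topology Finset

namespace Pool.Agent.TH981.AMZ

noncomputable section

/-- `x k = (-1)^k / k` -/
def x (k : ℕ) : ℂ := (-1) ^ k / (k : ℂ)

/-- `(cn a f) M = ∑_{k < M} x(k+1)^a f(k)` -/
def cn (a : ℕ) : (ℕ → ℂ) →ₗ[ℚ] (ℕ → ℂ) where
  toFun f := fun M => ∑ k ∈ range M, x (k + 1) ^ a * f k
  map_add' f g := by
    funext M
    simp only [Pi.add_apply, mul_add, sum_add_distrib]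
  map_smul' c f := by
    funext M
    simp only [Pi.smul_apply, RingHom.id_apply, Finset.smul_sum, mul_smul_comm]

theorem cn_apply (a : ℕ) (f : ℕ → ℂ) (M : ℕ) :
    cn a f M = ∑ k ∈ range M, x (k + 1) ^ a * f k := rfl

theorem cn_zero (a : ℕ) (f : ℕ → ℂ) : cn a f 0 = 0 := by simp [cn_apply]

theorem cn_succ (a : ℕ) (f : ℕ → ℂ) (M : ℕ) :
    cn a f (M + 1) = cn a f M + x (M + 1) ^ a * f M := by
  simp [cn_apply, sum_range_succ]

/-- truncated sums of words with letters `(a, (-1)^a)` -/
def S : List ℕ → ℕ → ℂ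
  | [] => 1
  | a :: l => cn a (S l)

theorem leibniz (r a : ℕ) (f : ℕ → ℂ) :
    cn r 1 * cn a f = cn r (cn a f) + cn a (cn r 1 * f) + cn (a + r) f := by
  funext M
  induction M with
  | zero => simp [cn_zero]
  | succ M ih =>
    simp only [Pi.mul_apply, Pi.add_apply, cn_succ, Pi.one_apply] at ih ⊢
    linear_combination ih

/-- the span of the words of weight `w` -/
def V (w : ℕ) : Submodule ℚ (ℕ → ℂ) :=
  Submodule.span ℚ {f | ∃ l : List ℕ, (∀ a ∈ l, 0 < a) ∧ l.sum = w ∧ f = S l}

theorem S_mem {l : List ℕ} (h : ∀ a ∈ l, 0 < a) : S l ∈ V l.sum :=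
  Submodule.subset_span ⟨l, h, rfl, rfl⟩

theorem cn_mem {w : ℕ} {a : ℕ} (ha : 0 < a) {f : ℕ → ℂ} (hf : f ∈ V w) :
    cn a f ∈ V (w + a) := by
  have : V w ≤ (V (w + a)).comap (cn a) := by
    rw [V, Submodule.span_le]
    rintro f ⟨l, hl, hw, rfl⟩
    refine Submodule.subset_span ⟨a :: l, ?_, ?_, rfl⟩
    · intro b hb
      rcases List.mem_cons.mp hb with rfl | hb
      · exact ha
      · exact hl b hb
    · simp [hw, add_comm]
  exact this hf

theorem mul_S_mem {r : ℕ} (hr : 0 < r) (l : List ℕ) (hl : ∀ a ∈ l, 0 < a) :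
    cn r 1 * S l ∈ V (l.sum + r) := by
  induction l with
  | nil =>
    have : cn r 1 * S [] = S [r] := by
      simp [S]
    rw [this]
    have h := S_mem (l := [r]) (by simpa using hr)
    simpa using h
  | cons a l ih =>
    have ha : 0 < a := hl a (by simp)
    have hl' : ∀ b ∈ l, 0 < b := fun b hb => hl b (by simp [hb])
    have e : cn r 1 * S (a :: l) = S (r :: a :: l) + cn a (cn r 1 * S l) + S ((a + r) :: l) := by
      change cn r 1 * cn a (S l) = _
      rw [leibniz]
      rfl
    rw [e]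
    refine add_mem (add_mem ?_ ?_) ?_
    · have h := S_mem (l := r :: a :: l) (by
        intro b hb
        rcases List.mem_cons.mp hb with rfl | hb
        · exact hr
        · exact hl b hb)
      have e2 : (r :: a :: l).sum = (a :: l).sum + r := by simp [add_comm]
      rwa [e2] at h
    · have h := cn_mem ha (ih hl')
      have e2 : l.sum + r + a = (a :: l).sum + r := by simp; ring
      rwa [e2] at h
    · have h := S_mem (l := (a + r) :: l) (by
        intro b hb
        rcases List.mem_cons.mp hb with rfl | hb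
        · omega
        · exact hl' b hb)
      have e2 : ((a + r) :: l).sum = (a :: l).sum + r := by simp; ring
      rwa [e2] at h

theorem mul_mem {r : ℕ} (hr : 0 < r) {w : ℕ} {f : ℕ → ℂ} (hf : f ∈ V w) :
    cn r 1 * f ∈ V (w + r) := by
  have : V w ≤ (V (w + r)).comap (LinearMap.mulLeft ℚ (cn r 1)) := by
    conv_lhs => rw [V]
    rw [Submodule.span_le]
    rintro f ⟨l, hl, hw, rfl⟩
    have h := mul_S_mem hr l hl
    rw [hw] at h
    exact h
  exact this hf

theorem one_mem : (1 : ℕ → ℂ) ∈ V 0 :=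
  Submodule.subset_span ⟨[], by simp, by simp, rfl⟩

theorem pow_mem {r : ℕ} (hr : 0 < r) {w : ℕ} {f : ℕ → ℂ} (hf : f ∈ V w) (m : ℕ) :
    cn r 1 ^ m * f ∈ V (w + r * m) := by
  induction m with
  | zero => simpa using hf
  | succ m ih =>
    have h := mul_mem hr ih
    rw [pow_succ']
    rw [mul_assoc]
    have e : w + r * (m + 1) = w + r * m + r := by ring
    rw [e]
    exact h

theorem mono_mem (m j : ℕ) : cn 1 1 ^ m * cn 2 1 ^ j ∈ V (m + 2 * j) := by
  have h := pow_mem (r := 1) one_pos (pow_mem (r := 2) two_pos one_mem j) m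
  rw [mul_one] at h
  convert h using 2
  ring

end

end Pool.Agent.TH981.AMZ
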