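import Mathlib
import Pool.Agent.TH981.AMZ.Base

/-!
Convergence of the truncated sums with letters `(a, (-1)^a)`.
-/

set_option autoImplicit false

open Filter Topology Finset

namespace Pool.Agent.TH981.AMZ

noncomputable section

theorem norm_x (k : ℕ) : ‖x (k + 1)‖ = 1 / ((k : ℝ) + 1) := by
  have h : ‖((k + 1 : ℕ) : ℂ)‖ = (k : ℝ) + 1 := by
    rw [Complex.norm_natCast]; push_cast; ring
  rw [x, norm_div, norm_pow, norm_neg, norm_one, one_pow, h]

theorem norm_x_pow {a : ℕ} (ha : 0 < a) (k : ℕ) : ‖x (k + 1) ^ a‖ ≤ 1 / ((k : ℝ) + 1) := by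
  rw [norm_pow, norm_x]
  have h0 : (0 : ℝ) < (k : ℝ) + 1 := by positivity
  have h1 : 1 / ((k : ℝ) + 1) ≤ 1 := by
    rw [div_le_one h0]
    have : (0 : ℝ) ≤ k := Nat.cast_nonneg k
    linarith
  calc (1 / ((k : ℝ) + 1)) ^ a ≤ (1 / ((k : ℝ) + 1)) ^ 1 :=
        pow_le_pow_of_le_one (by positivity) h1 ha
    _ = _ := pow_one _

theorem norm_x_pow2 {a : ℕ} (ha : 2 ≤ a) (k : ℕ) :
    ‖x (k + 1) ^ a‖ ≤ (1 / ((k : ℝ) + 1)) ^ 2 := by
  rw [norm_pow, norm_x]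
  have h0 : (0 : ℝ) < (k : ℝ) + 1 := by positivity
  have h1 : 1 / ((k : ℝ) + 1) ≤ 1 := by
    rw [div_le_one h0]
    have : (0 : ℝ) ≤ k := Nat.cast_nonneg k
    linarith
  exact pow_le_pow_of_le_one (by positivity) h1 ha

/-- growth at most a square root -/
def Gr (C : ℝ) (f : ℕ → ℂ) : Prop := 0 ≤ C ∧ ∀ k : ℕ, ‖f k‖ ≤ C * Real.sqrt ((k : ℝ) + 1)

theorem sum_inv_sqrt (M : ℕ) :
    ∑ k ∈ range M, 1 / Real.sqrt ((k : ℝ) + 1) ≤ 2 * Real.sqrt (M : ℝ) := by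
  induction M with
  | zero => simp
  | succ M ih =>
    rw [sum_range_succ]
    have h1 : 0 < Real.sqrt ((M : ℝ) + 1) := Real.sqrt_pos.mpr (by positivity)
    have h3 : Real.sqrt ((M : ℝ) + 1) ^ 2 = (M : ℝ) + 1 := Real.sq_sqrt (by positivity)
    have h4 : Real.sqrt (M : ℝ) ^ 2 = (M : ℝ) := Real.sq_sqrt (by positivity)
    have h5 : 1 / Real.sqrt ((M : ℝ) + 1) ≤
        2 * Real.sqrt ((M : ℝ) + 1) - 2 * Real.sqrt (M : ℝ) := by
      rw [div_le_iff₀ h1]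
      nlinarith [sq_nonneg (Real.sqrt ((M : ℝ) + 1) - Real.sqrt (M : ℝ))]
    push_cast
    linarith

theorem Gr.cn {C : ℝ} {f : ℕ → ℂ} (h : Gr C f) {a : ℕ} (ha : 0 < a) : Gr (2 * C) (cn a f) := by
  obtain ⟨hC, hf⟩ := h
  refine ⟨by positivity, fun M => ?_⟩
  rw [cn_apply]
  calc ‖∑ k ∈ range M, x (k + 1) ^ a * f k‖
      ≤ ∑ k ∈ range M, ‖x (k + 1) ^ a * f k‖ := norm_sum_le _ _
    _ ≤ ∑ k ∈ range M, C * (1 / Real.sqrt ((k : ℝ) + 1)) := by
        apply sum_le_sum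
        intro k _
        rw [norm_mul]
        have h1 : 0 < Real.sqrt ((k : ℝ) + 1) := Real.sqrt_pos.mpr (by positivity)
        have h3 : Real.sqrt ((k : ℝ) + 1) * Real.sqrt ((k : ℝ) + 1) = (k : ℝ) + 1 :=
          Real.mul_self_sqrt (by positivity)
        calc ‖x (k + 1) ^ a‖ * ‖f k‖ ≤ (1 / ((k : ℝ) + 1)) * (C * Real.sqrt ((k : ℝ) + 1)) :=
              mul_le_mul (norm_x_pow ha k) (hf k) (norm_nonneg _) (by positivity)
          _ = C * (1 / Real.sqrt ((k : ℝ) + 1)) := by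
              generalize Real.sqrt ((k : ℝ) + 1) = s at *
              rw [← h3]; field_simp
    _ = C * ∑ k ∈ range M, 1 / Real.sqrt ((k : ℝ) + 1) := by rw [mul_sum]
    _ ≤ C * (2 * Real.sqrt (M : ℝ)) := mul_le_mul_of_nonneg_left (sum_inv_sqrt M) hC
    _ ≤ 2 * C * Real.sqrt ((M : ℝ) + 1) := by
        have : Real.sqrt (M : ℝ) ≤ Real.sqrt ((M : ℝ) + 1) := Real.sqrt_le_sqrt (by linarith)
        nlinarith

theorem Gr_S (l : List ℕ) (hl : ∀ a ∈ l, 0 < a) : ∃ C, Gr C (S l) := by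
  induction l with
  | nil =>
    refine ⟨1, by norm_num, fun k => ?_⟩
    have : (1 : ℝ) ≤ Real.sqrt ((k : ℝ) + 1) := by
      rw [Real.one_le_sqrt]
      have : (0 : ℝ) ≤ k := Nat.cast_nonneg k
      linarith
    simpa [S] using this
  | cons a l ih =>
    obtain ⟨C, hC⟩ := ih (fun b hb => hl b (by simp [hb]))
    exact ⟨2 * C, hC.cn (hl a (by simp))⟩

/-- the comparison series -/
def q (k : ℕ) : ℝ := 1 / (((k : ℝ) + 1) * Real.sqrt ((k : ℝ) + 1))

theorem summable_q : Summable q := by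
  have h := (summable_nat_add_iff 1).mpr
    (Real.summable_one_div_nat_rpow (p := 3 / 2)|>.mpr (by norm_num))
  refine h.congr (fun k => ?_)
  have hk : (0 : ℝ) < (k : ℝ) + 1 := by positivity
  rw [q]
  push_cast
  congr 1
  rw [Real.sqrt_eq_rpow]
  nth_rewrite 2 [← Real.rpow_one ((k : ℝ) + 1)]
  rw [← Real.rpow_add hk]
  norm_num

theorem conv_of_summable {g : ℕ → ℂ} (h : Summable fun k => ‖g k‖) :
    ∃ y, Tendsto (fun M => ∑ k ∈ range M, g k) atTop (𝓝 y) :=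
  ⟨_, (h.of_norm).hasSum.tendsto_sum_nat⟩

theorem conv_two {C : ℝ} {f : ℕ → ℂ} (h : Gr C f) {a : ℕ} (ha : 2 ≤ a) :
    ∃ y, Tendsto (cn a f) atTop (𝓝 y) := by
  obtain ⟨hC, hf⟩ := h
  have : Summable fun k => ‖x (k + 1) ^ a * f k‖ := by
    refine Summable.of_nonneg_of_le (fun _ => norm_nonneg _) (fun k => ?_) (summable_q.mul_left C)
    rw [norm_mul]
    have h1 : 0 < Real.sqrt ((k : ℝ) + 1) := Real.sqrt_pos.mpr (by positivity)
    have h3 : Real.sqrt ((k : ℝ) + 1) * Real.sqrt ((k : ℝ) + 1) = (k : ℝ) + 1 :=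
      Real.mul_self_sqrt (by positivity)
    calc ‖x (k + 1) ^ a‖ * ‖f k‖ ≤ (1 / ((k : ℝ) + 1)) ^ 2 * (C * Real.sqrt ((k : ℝ) + 1)) :=
          mul_le_mul (norm_x_pow2 ha k) (hf k) (norm_nonneg _) (by positivity)
      _ = C * q k := by
          rw [q]
          generalize Real.sqrt ((k : ℝ) + 1) = s at *
          rw [← h3]; field_simp
  obtain ⟨y, hy⟩ := conv_of_summable this
  exact ⟨y, hy⟩

theorem conv_alt {g : ℕ → ℂ} (h0 : Tendsto g atTop (𝓝 0))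
    (h : Summable fun k => ‖g k - g (k + 1)‖) :
    ∃ y, Tendsto (fun M => ∑ k ∈ range M, (-1) ^ (k + 1) * g k) atTop (𝓝 y) := by
  have h1 : Summable fun k => ‖(-1 : ℂ) ^ (k + 1) * (g k - g (k + 1))‖ := by
    refine h.congr (fun k => ?_)
    rw [norm_mul, norm_pow, norm_neg, norm_one, one_pow, one_mul]
  obtain ⟨y, hy⟩ := conv_of_summable h1
  have e : ∀ M, ∑ k ∈ range M, (-1 : ℂ) ^ (k + 1) * g k =
      (-(g 0) + ∑ k ∈ range M, (-1 : ℂ) ^ (k + 1) * (g k - g (k + 1)) -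
        (-1) ^ (M + 1) * g M) / 2 := by
    intro M
    induction M with
    | zero => simp
    | succ M ih =>
      rw [sum_range_succ, sum_range_succ, ih]
      ring
  have h2 : Tendsto (fun M : ℕ => (-1 : ℂ) ^ (M + 1) * g M) atTop (𝓝 0) := by
    rw [tendsto_zero_iff_norm_tendsto_zero] at h0 ⊢
    refine h0.congr (fun M => ?_)
    rw [norm_mul, norm_pow, norm_neg, norm_one, one_pow, one_mul]
  refine ⟨(-(g 0) + y - 0) / 2, ?_⟩
  have h3 := ((tendsto_const_nhds (x := -(g 0))).add hy).sub h2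
  exact (h3.div_const 2).congr (fun M => (e M).symm)

theorem incr_S (l : List ℕ) (hl : ∀ a ∈ l, 0 < a) :
    ∃ C : ℝ, 0 ≤ C ∧ ∀ k : ℕ, ‖S l k - S l (k + 1)‖ ≤ C / Real.sqrt ((k : ℝ) + 1) := by
  cases l with
  | nil =>
    refine ⟨0, le_rfl, fun k => ?_⟩
    simp [S]
  | cons a l =>
    obtain ⟨C, hC, hf⟩ := Gr_S l (fun b hb => hl b (by simp [hb]))
    refine ⟨C, hC, fun k => ?_⟩
    have e : S (a :: l) k - S (a :: l) (k + 1) = -(x (k + 1) ^ a * S l k) := by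
      change cn a (S l) k - cn a (S l) (k + 1) = _
      rw [cn_succ]; ring
    rw [e, norm_neg, norm_mul]
    have h1 : 0 < Real.sqrt ((k : ℝ) + 1) := Real.sqrt_pos.mpr (by positivity)
    have h3 : Real.sqrt ((k : ℝ) + 1) * Real.sqrt ((k : ℝ) + 1) = (k : ℝ) + 1 :=
      Real.mul_self_sqrt (by positivity)
    calc ‖x (k + 1) ^ a‖ * ‖S l k‖ ≤ (1 / ((k : ℝ) + 1)) * (C * Real.sqrt ((k : ℝ) + 1)) :=
          mul_le_mul (norm_x_pow (hl a (by simp)) k) (hf k) (norm_nonneg _) (by positivity)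
      _ = C / Real.sqrt ((k : ℝ) + 1) := by
          generalize Real.sqrt ((k : ℝ) + 1) = s at *
          rw [← h3]; field_simp

theorem tendsto_inv_sqrt : Tendsto (fun k : ℕ => 1 / Real.sqrt ((k : ℝ) + 1)) atTop (𝓝 0) := by
  have h1 : Tendsto (fun k : ℕ => Real.sqrt ((k : ℝ) + 1)) atTop atTop :=
    Real.tendsto_sqrt_atTop.comp
      (tendsto_atTop_add_const_right _ _ tendsto_natCast_atTop_atTop)
  refine h1.inv_tendsto_atTop.congr (fun k => ?_)
  simp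

theorem conv_one (l : List ℕ) (hl : ∀ a ∈ l, 0 < a) :
    ∃ y, Tendsto (cn 1 (S l)) atTop (𝓝 y) := by
  obtain ⟨C, hC, hf⟩ := Gr_S l hl
  obtain ⟨D, hD, hd⟩ := incr_S l hl
  set g : ℕ → ℂ := fun k => S l k / ((k + 1 : ℕ) : ℂ) with hg
  have hn : ∀ k : ℕ, ‖((k + 1 : ℕ) : ℂ)‖ = (k : ℝ) + 1 := by
    intro k
    rw [Complex.norm_natCast]; push_cast; ring
  have e : cn 1 (S l) = fun M => ∑ k ∈ range M, (-1) ^ (k + 1) * g k := by
    funext M
    rw [cn_apply]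
    apply sum_congr rfl
    intro k _
    rw [pow_one, x, hg]
    ring
  rw [e]
  apply conv_alt
  · rw [tendsto_zero_iff_norm_tendsto_zero]
    have h1 : Tendsto (fun k : ℕ => C * (1 / Real.sqrt ((k : ℝ) + 1))) atTop (𝓝 0) := by
      simpa using tendsto_inv_sqrt.const_mul C
    refine squeeze_zero (fun k => norm_nonneg _) (fun k => ?_) h1
    rw [hg]
    simp only
    rw [norm_div, hn]
    have h1 : 0 < Real.sqrt ((k : ℝ) + 1) := Real.sqrt_pos.mpr (by positivity)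
    have h3 : Real.sqrt ((k : ℝ) + 1) * Real.sqrt ((k : ℝ) + 1) = (k : ℝ) + 1 :=
      Real.mul_self_sqrt (by positivity)
    calc ‖S l k‖ / ((k : ℝ) + 1) ≤ (C * Real.sqrt ((k : ℝ) + 1)) / ((k : ℝ) + 1) := by
          gcongr
          exact hf k
      _ = C * (1 / Real.sqrt ((k : ℝ) + 1)) := by
          nth_rewrite 2 [← h3]; field_simp
  · refine Summable.of_nonneg_of_le (fun _ => norm_nonneg _) (fun k => ?_)
      (summable_q.mul_left (D + C))
    have hk1 : ((k + 1 : ℕ) : ℂ) ≠ 0 := by exact_mod_cast Nat.succ_ne_zero k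
    have hk2 : ((k + 1 + 1 : ℕ) : ℂ) ≠ 0 := by exact_mod_cast Nat.succ_ne_zero (k + 1)
    have e1 : g k - g (k + 1) = (S l k - S l (k + 1)) / ((k + 1 + 1 : ℕ) : ℂ) +
        S l k / (((k + 1 : ℕ) : ℂ) * ((k + 1 + 1 : ℕ) : ℂ)) := by
      rw [hg]
      simp only
      field_simp
      push_cast
      ring
    have hn2 : ‖((k + 1 + 1 : ℕ) : ℂ)‖ = (k : ℝ) + 2 := by
      rw [Complex.norm_natCast]; push_cast; ring
    have h1 : 0 < Real.sqrt ((k : ℝ) + 1) := Real.sqrt_pos.mpr (by positivity)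
    have h3 : Real.sqrt ((k : ℝ) + 1) * Real.sqrt ((k : ℝ) + 1) = (k : ℝ) + 1 :=
      Real.mul_self_sqrt (by positivity)
    have hk : (0 : ℝ) < (k : ℝ) + 1 := by positivity
    rw [e1]
    calc ‖(S l k - S l (k + 1)) / ((k + 1 + 1 : ℕ) : ℂ) +
        S l k / (((k + 1 : ℕ) : ℂ) * ((k + 1 + 1 : ℕ) : ℂ))‖
        ≤ ‖(S l k - S l (k + 1)) / ((k + 1 + 1 : ℕ) : ℂ)‖ +
          ‖S l k / (((k + 1 : ℕ) : ℂ) * ((k + 1 + 1 : ℕ) : ℂ))‖ := norm_add_le _ _
      _ = ‖S l k - S l (k + 1)‖ / ((k : ℝ) + 2) +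
          ‖S l k‖ / (((k : ℝ) + 1) * ((k : ℝ) + 2)) := by
          rw [norm_div, norm_div, norm_mul, hn2, hn]
      _ ≤ (D / Real.sqrt ((k : ℝ) + 1)) / ((k : ℝ) + 1) +
          (C * Real.sqrt ((k : ℝ) + 1)) / (((k : ℝ) + 1) * ((k : ℝ) + 1)) := by
          gcongr
          · exact hd k
          · linarith
          · exact hf k
          · linarith
      _ = (D + C) * q k := by
          rw [q]
          generalize Real.sqrt ((k : ℝ) + 1) = s at *
          rw [← h3]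
          field_simp

theorem conv_S (l : List ℕ) (hl : ∀ a ∈ l, 0 < a) (hne : l ≠ []) :
    ∃ y, Tendsto (S l) atTop (𝓝 y) := by
  cases l with
  | nil => exact absurd rfl hne
  | cons a l =>
    have ha : 0 < a := hl a (by simp)
    have hl' : ∀ b ∈ l, 0 < b := fun b hb => hl b (by simp [hb])
    rcases Nat.lt_or_ge a 2 with h | h
    · have : a = 1 := by omega
      subst this
      exact conv_one l hl'
    · obtain ⟨C, hC⟩ := Gr_S l hl'
      exact conv_two hC h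

end

end Pool.Agent.TH981.AMZ
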