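import Mathlib
import Pool.Agent.TH981.AMZ.Defs

/-!
Stuffle products of truncated sums, any level.
-/

set_option autoImplicit false

open Filter Topology Finset

namespace Pool.Agent.TH981.AMZ

noncomputable section

/-- `(cg p f) M = ∑_{k < M} z^(k+1) / (k+1)^a f(k)`, `p = (a, z)` -/
def cg (p : ℕ × ℂ) : (ℕ → ℂ) →ₗ[ℚ] (ℕ → ℂ) where
  toFun f := fun M => ∑ k ∈ range M, p.2 ^ (k + 1) / ((k + 1 : ℕ) : ℂ) ^ p.1 * f k
  map_add' f g := by
    funext M
    simp only [Pi.add_apply, mul_add, sum_add_distrib]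
  map_smul' c f := by
    funext M
    simp only [Pi.smul_apply, RingHom.id_apply, Finset.smul_sum, mul_smul_comm]

theorem cg_apply (p : ℕ × ℂ) (f : ℕ → ℂ) (M : ℕ) :
    cg p f M = ∑ k ∈ range M, p.2 ^ (k + 1) / ((k + 1 : ℕ) : ℂ) ^ p.1 * f k := rfl

theorem cg_zero (p : ℕ × ℂ) (f : ℕ → ℂ) : cg p f 0 = 0 := by simp [cg_apply]

theorem cg_succ (p : ℕ × ℂ) (f : ℕ → ℂ) (M : ℕ) :
    cg p f (M + 1) = cg p f M + p.2 ^ (M + 1) / ((M + 1 : ℕ) : ℂ) ^ p.1 * f M := by
  simp [cg_apply, sum_range_succ]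

theorem liTrunc_nil : liTrunc [] = 1 := by
  funext M; rfl

theorem liTrunc_cons (p : ℕ × ℂ) (l : List (ℕ × ℂ)) : liTrunc (p :: l) = cg p (liTrunc l) := by
  funext M
  obtain ⟨a, z⟩ := p
  rw [liTrunc, cg_apply]

/-- product of letters -/
def pm (p q : ℕ × ℂ) : ℕ × ℂ := (p.1 + q.1, p.2 * q.2)

theorem gleibniz (p q : ℕ × ℂ) (f g : ℕ → ℂ) :
    cg p f * cg q g = cg p (f * cg q g) + cg q (cg p f * g) + cg (pm p q) (f * g) := by
  funext M
  induction M with
  | zero => simp [cg_zero]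
  | succ M ih =>
    simp only [Pi.mul_apply, Pi.add_apply, cg_succ, pm] at ih ⊢
    have e : (p.2 * q.2) ^ (M + 1) / ((M + 1 : ℕ) : ℂ) ^ (p.1 + q.1) =
        (p.2 ^ (M + 1) / ((M + 1 : ℕ) : ℂ) ^ p.1) * (q.2 ^ (M + 1) / ((M + 1 : ℕ) : ℂ) ^ q.1) := by
      rw [mul_pow, pow_add (((M + 1 : ℕ) : ℂ)), mul_div_mul_comm]
    rw [e]
    linear_combination ih

/-- valid letters of level `N` -/
def Lt (N : ℕ) (p : ℕ × ℂ) : Prop := 0 < p.1 ∧ p.2 ^ N = 1

theorem Lt.pm {N : ℕ} {p q : ℕ × ℂ} (hp : Lt N p) (hq : Lt N q) : Lt N (pm p q) :=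
  ⟨Nat.add_pos_left hp.1 _, by
    change (p.2 * q.2) ^ N = 1
    rw [mul_pow, hp.2, hq.2, one_mul]⟩

/-- the span of all words of weight `w` -/
def U (N w : ℕ) : Submodule ℚ (ℕ → ℂ) :=
  Submodule.span ℚ {f | ∃ l : List (ℕ × ℂ), (∀ p ∈ l, Lt N p) ∧ (l.map Prod.fst).sum = w ∧
    f = liTrunc l}

/-- the span of the admissible words of weight `w` -/
def A (N w : ℕ) : Submodule ℚ (ℕ → ℂ) :=
  Submodule.span ℚ {f | ∃ l : List (ℕ × ℂ), Adm N w l ∧ f = liTrunc l}

theorem li_mem_U {N : ℕ} {l : List (ℕ × ℂ)} (h : ∀ p ∈ l, Lt N p) :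
    liTrunc l ∈ U N (l.map Prod.fst).sum :=
  Submodule.subset_span ⟨l, h, rfl, rfl⟩

theorem cg_mem_U {N w : ℕ} {p : ℕ × ℂ} (hp : Lt N p) {f : ℕ → ℂ} (hf : f ∈ U N w) :
    cg p f ∈ U N (p.1 + w) := by
  have : U N w ≤ (U N (p.1 + w)).comap (cg p) := by
    conv_lhs => rw [U]
    rw [Submodule.span_le]
    rintro f ⟨l, hl, hw, rfl⟩
    refine Submodule.subset_span ⟨p :: l, ?_, ?_, (liTrunc_cons p l).symm⟩
    · intro b hb
      rcases List.mem_cons.mp hb with rfl | hb
      · exact hp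
      · exact hl b hb
    · simp [hw]
  exact this hf

theorem cg_mem_A {N w : ℕ} {p : ℕ × ℂ} (hp : Lt N p) (hp1 : p ≠ (1, 1)) {f : ℕ → ℂ}
    (hf : f ∈ U N w) : cg p f ∈ A N (p.1 + w) := by
  have : U N w ≤ (A N (p.1 + w)).comap (cg p) := by
    rw [U, Submodule.span_le]
    rintro f ⟨l, hl, hw, rfl⟩
    refine Submodule.subset_span ⟨p :: l, ⟨by simp, ?_, ?_, ?_⟩, (liTrunc_cons p l).symm⟩
    · intro b hb
      rcases List.mem_cons.mp hb with rfl | hb
      · exact hp
      · exact hl b hb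
    · simp [hw]
    · simpa using hp1
  exact this hf

theorem mul_li_U {N : ℕ} (l : List (ℕ × ℂ)) (hl : ∀ p ∈ l, Lt N p) :
    ∀ m : List (ℕ × ℂ), (∀ p ∈ m, Lt N p) →
      liTrunc l * liTrunc m ∈ U N ((l.map Prod.fst).sum + (m.map Prod.fst).sum) := by
  induction l with
  | nil =>
    intro m hm
    rw [liTrunc_nil, one_mul]
    simpa using li_mem_U hm
  | cons p l ih =>
    intro m hm
    have hp : Lt N p := hl p (by simp)
    have hl' : ∀ q ∈ l, Lt N q := fun q hq => hl q (by simp [hq])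
    induction m with
    | nil =>
      rw [liTrunc_nil, mul_one]
      simpa using li_mem_U hl
    | cons q m ih2 =>
      have hq : Lt N q := hm q (by simp)
      have hm' : ∀ r ∈ m, Lt N r := fun r hr => hm r (by simp [hr])
      have e : liTrunc (p :: l) * liTrunc (q :: m) = cg p (liTrunc l * liTrunc (q :: m)) +
          cg q (liTrunc (p :: l) * liTrunc m) + cg (pm p q) (liTrunc l * liTrunc m) := by
        rw [liTrunc_cons p l, liTrunc_cons q m, gleibniz]
      rw [e]
      refine add_mem (add_mem ?_ ?_) ?_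
      · have h := cg_mem_U hp (ih hl' (q :: m) hm)
        convert h using 2
        simp [add_assoc]
      · have h := cg_mem_U hq (ih2 hm')
        convert h using 2
        simp; ring
      · have h := cg_mem_U (hp.pm hq) (ih hl' m hm')
        convert h using 2
        simp [pm]; ring

theorem pm_ne {N : ℕ} {p q : ℕ × ℂ} (hp : Lt N p) (hq : Lt N q) : pm p q ≠ (1, 1) := by
  intro h
  have h1 := congrArg Prod.fst h
  have := hp.1
  have := hq.1
  simp only [pm] at h1
  omega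

theorem mul_li_A {N v w : ℕ} {l m : List (ℕ × ℂ)} (hl : Adm N v l) (hm : Adm N w m) :
    liTrunc l * liTrunc m ∈ A N (v + w) := by
  obtain ⟨hl0, hl1, hl2, hl3⟩ := hl
  obtain ⟨hm0, hm1, hm2, hm3⟩ := hm
  cases l with
  | nil => exact absurd rfl hl0
  | cons p l =>
    cases m with
    | nil => exact absurd rfl hm0
    | cons q m =>
      have hp : Lt N p := hl1 p (by simp)
      have hq : Lt N q := hm1 q (by simp)
      have hl' : ∀ q ∈ l, Lt N q := fun q hq => hl1 q (by simp [hq])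
      have hm' : ∀ r ∈ m, Lt N r := fun r hr => hm1 r (by simp [hr])
      have hp1 : p ≠ (1, 1) := by simpa using hl3
      have hq1 : q ≠ (1, 1) := by simpa using hm3
      have e : liTrunc (p :: l) * liTrunc (q :: m) = cg p (liTrunc l * liTrunc (q :: m)) +
          cg q (liTrunc (p :: l) * liTrunc m) + cg (pm p q) (liTrunc l * liTrunc m) := by
        rw [liTrunc_cons p l, liTrunc_cons q m, gleibniz]
      rw [e, ← hl2, ← hm2]
      refine add_mem (add_mem ?_ ?_) ?_
      · have h := cg_mem_A hp hp1 (mul_li_U l hl' (q :: m) hm1)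
        convert h using 2
        simp [add_assoc]
      · have h := cg_mem_A hq hq1 (mul_li_U (p :: l) hl1 m hm')
        convert h using 2
        simp; ring
      · have h := cg_mem_A (hp.pm hq) (pm_ne hp hq) (mul_li_U l hl' m hm')
        convert h using 2
        simp [pm]; ring

theorem mul_mem_A {N v w : ℕ} {f g : ℕ → ℂ} (hf : f ∈ A N v) (hg : g ∈ A N w) :
    f * g ∈ A N (v + w) := by
  induction hf using Submodule.span_induction with
  | mem f h =>
    obtain ⟨l, hl, rfl⟩ := h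
    induction hg using Submodule.span_induction with
    | mem g h =>
      obtain ⟨m, hm, rfl⟩ := h
      exact mul_li_A hl hm
    | zero => rw [mul_zero]; exact zero_mem _
    | add g g' _ _ h h' => rw [mul_add]; exact add_mem h h'
    | smul c g _ h => rw [mul_smul_comm]; exact Submodule.smul_mem _ _ h
  | zero => rw [zero_mul]; exact zero_mem _
  | add f f' _ _ h h' => rw [add_mul]; exact add_mem h h'
  | smul c f _ h => rw [smul_mul_assoc]; exact Submodule.smul_mem _ _ h

end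

end Pool.Agent.TH981.AMZ
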