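import Mathlib
import Pool.Agent.TH981.AMZ.GAlg
import Pool.Agent.TH981.AMZ.Conv

/-!
Convergence of the series of all admissible words, any level.
-/

set_option autoImplicit false

open Filter Topology Finset

namespace Pool.Agent.TH981.AMZ

noncomputable section

theorem norm_lt {p : ℕ × ℂ} (hp : 0 < p.1) (hz : ‖p.2‖ = 1) (k : ℕ) :
    ‖p.2 ^ (k + 1) / ((k + 1 : ℕ) : ℂ) ^ p.1‖ ≤ 1 / ((k : ℝ) + 1) := by
  have h : ‖((k + 1 : ℕ) : ℂ)‖ = (k : ℝ) + 1 := by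
    rw [Complex.norm_natCast]; push_cast; ring
  rw [norm_div, norm_pow, norm_pow, hz, one_pow, h]
  have h0 : (0 : ℝ) < (k : ℝ) + 1 := by positivity
  have h1 : (1 : ℝ) ≤ (k : ℝ) + 1 := by
    have : (0 : ℝ) ≤ k := Nat.cast_nonneg k
    linarith
  apply one_div_le_one_div_of_le h0
  calc (k : ℝ) + 1 = ((k : ℝ) + 1) ^ 1 := (pow_one _).symm
    _ ≤ _ := pow_le_pow_right₀ h1 hp

theorem norm_lt2 {p : ℕ × ℂ} (hp : 2 ≤ p.1) (hz : ‖p.2‖ = 1) (k : ℕ) :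
    ‖p.2 ^ (k + 1) / ((k + 1 : ℕ) : ℂ) ^ p.1‖ ≤ (1 / ((k : ℝ) + 1)) ^ 2 := by
  have h : ‖((k + 1 : ℕ) : ℂ)‖ = (k : ℝ) + 1 := by
    rw [Complex.norm_natCast]; push_cast; ring
  rw [norm_div, norm_pow, norm_pow, hz, one_pow, h, div_pow, one_pow]
  have h0 : (0 : ℝ) < (k : ℝ) + 1 := by positivity
  have h1 : (1 : ℝ) ≤ (k : ℝ) + 1 := by
    have : (0 : ℝ) ≤ k := Nat.cast_nonneg k
    linarith
  apply one_div_le_one_div_of_le (by positivity)
  exact pow_le_pow_right₀ h1 hp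

theorem Gr.cg {C : ℝ} {f : ℕ → ℂ} (h : Gr C f) {p : ℕ × ℂ} (hp : 0 < p.1) (hz : ‖p.2‖ = 1) :
    Gr (2 * C) (cg p f) := by
  obtain ⟨hC, hf⟩ := h
  refine ⟨by positivity, fun M => ?_⟩
  rw [cg_apply]
  calc ‖∑ k ∈ range M, p.2 ^ (k + 1) / ((k + 1 : ℕ) : ℂ) ^ p.1 * f k‖
      ≤ ∑ k ∈ range M, ‖p.2 ^ (k + 1) / ((k + 1 : ℕ) : ℂ) ^ p.1 * f k‖ := norm_sum_le _ _
    _ ≤ ∑ k ∈ range M, C * (1 / Real.sqrt ((k : ℝ) + 1)) := by
        apply sum_le_sum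
        intro k _
        rw [norm_mul]
        have h1 : 0 < Real.sqrt ((k : ℝ) + 1) := Real.sqrt_pos.mpr (by positivity)
        have h3 : Real.sqrt ((k : ℝ) + 1) * Real.sqrt ((k : ℝ) + 1) = (k : ℝ) + 1 :=
          Real.mul_self_sqrt (by positivity)
        calc ‖p.2 ^ (k + 1) / ((k + 1 : ℕ) : ℂ) ^ p.1‖ * ‖f k‖
            ≤ (1 / ((k : ℝ) + 1)) * (C * Real.sqrt ((k : ℝ) + 1)) :=
              mul_le_mul (norm_lt hp hz k) (hf k) (norm_nonneg _) (by positivity)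
          _ = C * (1 / Real.sqrt ((k : ℝ) + 1)) := by
              generalize Real.sqrt ((k : ℝ) + 1) = s at *
              rw [← h3]; field_simp
    _ = C * ∑ k ∈ range M, 1 / Real.sqrt ((k : ℝ) + 1) := by rw [mul_sum]
    _ ≤ C * (2 * Real.sqrt (M : ℝ)) := mul_le_mul_of_nonneg_left (sum_inv_sqrt M) hC
    _ ≤ 2 * C * Real.sqrt ((M : ℝ) + 1) := by
        have : Real.sqrt (M : ℝ) ≤ Real.sqrt ((M : ℝ) + 1) := Real.sqrt_le_sqrt (by linarith)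
        nlinarith

theorem Gr_li (l : List (ℕ × ℂ)) (hl : ∀ p ∈ l, 0 < p.1 ∧ ‖p.2‖ = 1) : ∃ C, Gr C (liTrunc l) := by
  induction l with
  | nil =>
    refine ⟨1, by norm_num, fun k => ?_⟩
    have : (1 : ℝ) ≤ Real.sqrt ((k : ℝ) + 1) := by
      rw [Real.one_le_sqrt]
      have : (0 : ℝ) ≤ k := Nat.cast_nonneg k
      linarith
    rw [liTrunc_nil]
    simpa using this
  | cons p l ih =>
    obtain ⟨C, hC⟩ := ih (fun b hb => hl b (by simp [hb]))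
    rw [liTrunc_cons]
    exact ⟨2 * C, hC.cg (hl p (by simp)).1 (hl p (by simp)).2⟩

theorem incr_li (l : List (ℕ × ℂ)) (hl : ∀ p ∈ l, 0 < p.1 ∧ ‖p.2‖ = 1) :
    ∃ C : ℝ, 0 ≤ C ∧ ∀ k : ℕ, ‖liTrunc l k - liTrunc l (k + 1)‖ ≤ C / Real.sqrt ((k : ℝ) + 1) := by
  cases l with
  | nil =>
    refine ⟨0, le_rfl, fun k => ?_⟩
    rw [liTrunc_nil]
    simp
  | cons p l =>
    obtain ⟨C, hC, hf⟩ := Gr_li l (fun b hb => hl b (by simp [hb]))
    refine ⟨C, hC, fun k => ?_⟩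
    have e : liTrunc (p :: l) k - liTrunc (p :: l) (k + 1) =
        -(p.2 ^ (k + 1) / ((k + 1 : ℕ) : ℂ) ^ p.1 * liTrunc l k) := by
      rw [liTrunc_cons, cg_succ]; ring
    rw [e, norm_neg, norm_mul]
    have h1 : 0 < Real.sqrt ((k : ℝ) + 1) := Real.sqrt_pos.mpr (by positivity)
    have h3 : Real.sqrt ((k : ℝ) + 1) * Real.sqrt ((k : ℝ) + 1) = (k : ℝ) + 1 :=
      Real.mul_self_sqrt (by positivity)
    calc ‖p.2 ^ (k + 1) / ((k + 1 : ℕ) : ℂ) ^ p.1‖ * ‖liTrunc l k‖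
        ≤ (1 / ((k : ℝ) + 1)) * (C * Real.sqrt ((k : ℝ) + 1)) :=
          mul_le_mul (norm_lt (hl p (by simp)).1 (hl p (by simp)).2 k) (hf k) (norm_nonneg _)
            (by positivity)
      _ = C / Real.sqrt ((k : ℝ) + 1) := by
          generalize Real.sqrt ((k : ℝ) + 1) = s at *
          rw [← h3]; field_simp

theorem conv_osc {z : ℂ} (hz : ‖z‖ = 1) (hz1 : z ≠ 1) {g : ℕ → ℂ} (h0 : Tendsto g atTop (𝓝 0))
    (h : Summable fun k => ‖g k - g (k + 1)‖) :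
    ∃ y, Tendsto (fun M => ∑ k ∈ range M, z ^ (k + 1) * g k) atTop (𝓝 y) := by
  have h1 : Summable fun k => ‖z ^ (k + 1) * (g k - g (k + 1))‖ := by
    refine h.congr (fun k => ?_)
    rw [norm_mul, norm_pow, hz, one_pow, one_mul]
  obtain ⟨y, hy⟩ := conv_of_summable h1
  have hz2 : z - 1 ≠ 0 := sub_ne_zero.mpr hz1
  have e : ∀ M, ∑ k ∈ range M, z ^ (k + 1) * g k =
      z * (z ^ M * g M - g 0 + ∑ k ∈ range M, z ^ (k + 1) * (g k - g (k + 1))) / (z - 1) := by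
    intro M
    rw [eq_div_iff hz2]
    induction M with
    | zero => simp
    | succ M ih =>
      rw [sum_range_succ, sum_range_succ, add_mul, ih]
      ring
  have h2 : Tendsto (fun M : ℕ => z ^ M * g M) atTop (𝓝 0) := by
    rw [tendsto_zero_iff_norm_tendsto_zero] at h0 ⊢
    refine h0.congr (fun M => ?_)
    rw [norm_mul, norm_pow, hz, one_pow, one_mul]
  refine ⟨z * (0 - g 0 + y) / (z - 1), ?_⟩
  have h3 := (h2.sub (tendsto_const_nhds (x := g 0))).add hy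
  exact ((h3.const_mul z).div_const (z - 1)).congr (fun M => (e M).symm)

theorem conv_two' {C : ℝ} {f : ℕ → ℂ} (h : Gr C f) {p : ℕ × ℂ} (hp : 2 ≤ p.1)
    (hz : ‖p.2‖ = 1) : ∃ y, Tendsto (cg p f) atTop (𝓝 y) := by
  obtain ⟨hC, hf⟩ := h
  have : Summable fun k => ‖p.2 ^ (k + 1) / ((k + 1 : ℕ) : ℂ) ^ p.1 * f k‖ := by
    refine Summable.of_nonneg_of_le (fun _ => norm_nonneg _) (fun k => ?_) (summable_q.mul_left C)
    rw [norm_mul]
    have h1 : 0 < Real.sqrt ((k : ℝ) + 1) := Real.sqrt_pos.mpr (by positivity)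
    have h3 : Real.sqrt ((k : ℝ) + 1) * Real.sqrt ((k : ℝ) + 1) = (k : ℝ) + 1 :=
      Real.mul_self_sqrt (by positivity)
    calc ‖p.2 ^ (k + 1) / ((k + 1 : ℕ) : ℂ) ^ p.1‖ * ‖f k‖
        ≤ (1 / ((k : ℝ) + 1)) ^ 2 * (C * Real.sqrt ((k : ℝ) + 1)) :=
          mul_le_mul (norm_lt2 hp hz k) (hf k) (norm_nonneg _) (by positivity)
      _ = C * q k := by
          rw [q]
          generalize Real.sqrt ((k : ℝ) + 1) = s at *
          rw [← h3]; field_simp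
  obtain ⟨y, hy⟩ := conv_of_summable this
  exact ⟨y, hy⟩

theorem conv_one' {z : ℂ} (hz : ‖z‖ = 1) (hz1 : z ≠ 1) (l : List (ℕ × ℂ))
    (hl : ∀ p ∈ l, 0 < p.1 ∧ ‖p.2‖ = 1) :
    ∃ y, Tendsto (cg (1, z) (liTrunc l)) atTop (𝓝 y) := by
  obtain ⟨C, hC, hf⟩ := Gr_li l hl
  obtain ⟨D, hD, hd⟩ := incr_li l hl
  set g : ℕ → ℂ := fun k => liTrunc l k / ((k + 1 : ℕ) : ℂ) with hg
  have hn : ∀ k : ℕ, ‖((k + 1 : ℕ) : ℂ)‖ = (k : ℝ) + 1 := by
    intro k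
    rw [Complex.norm_natCast]; push_cast; ring
  have e : cg (1, z) (liTrunc l) = fun M => ∑ k ∈ range M, z ^ (k + 1) * g k := by
    funext M
    rw [cg_apply]
    apply sum_congr rfl
    intro k _
    rw [pow_one, hg]
    ring
  rw [e]
  apply conv_osc hz hz1
  · rw [tendsto_zero_iff_norm_tendsto_zero]
    have h1 : Tendsto (fun k : ℕ => C * (1 / Real.sqrt ((k : ℝ) + 1))) atTop (𝓝 0) := by
      simpa using tendsto_inv_sqrt.const_mul C
    refine squeeze_zero (fun k => norm_nonneg _) (fun k => ?_) h1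
    rw [hg]
    simp only
    rw [norm_div, hn]
    have h1 : 0 < Real.sqrt ((k : ℝ) + 1) := Real.sqrt_pos.mpr (by positivity)
    have h3 : Real.sqrt ((k : ℝ) + 1) * Real.sqrt ((k : ℝ) + 1) = (k : ℝ) + 1 :=
      Real.mul_self_sqrt (by positivity)
    calc ‖liTrunc l k‖ / ((k : ℝ) + 1) ≤ (C * Real.sqrt ((k : ℝ) + 1)) / ((k : ℝ) + 1) := by
          gcongr
          exact hf k
      _ = C * (1 / Real.sqrt ((k : ℝ) + 1)) := by
          nth_rewrite 2 [← h3]; field_simp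
  · refine Summable.of_nonneg_of_le (fun _ => norm_nonneg _) (fun k => ?_)
      (summable_q.mul_left (D + C))
    have hk1 : ((k + 1 : ℕ) : ℂ) ≠ 0 := by exact_mod_cast Nat.succ_ne_zero k
    have hk2 : ((k + 1 + 1 : ℕ) : ℂ) ≠ 0 := by exact_mod_cast Nat.succ_ne_zero (k + 1)
    have e1 : g k - g (k + 1) = (liTrunc l k - liTrunc l (k + 1)) / ((k + 1 + 1 : ℕ) : ℂ) +
        liTrunc l k / (((k + 1 : ℕ) : ℂ) * ((k + 1 + 1 : ℕ) : ℂ)) := by
      rw [hg]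
      simp only
      field_simp
      push_cast
      ring
    have hn2 : ‖((k + 1 + 1 : ℕ) : ℂ)‖ = (k : ℝ) + 2 := by
      rw [Complex.norm_natCast]; push_cast; ring
    have h1 : 0 < Real.sqrt ((k : ℝ) + 1) := Real.sqrt_pos.mpr (by positivity)
    have h3 : Real.sqrt ((k : ℝ) + 1) * Real.sqrt ((k : ℝ) + 1) = (k : ℝ) + 1 :=
      Real.mul_self_sqrt (by positivity)
    have hk : (0 : ℝ) < (k : ℝ) + 1 := by positivity
    rw [e1]
    calc ‖(liTrunc l k - liTrunc l (k + 1)) / ((k + 1 + 1 : ℕ) : ℂ) +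
        liTrunc l k / (((k + 1 : ℕ) : ℂ) * ((k + 1 + 1 : ℕ) : ℂ))‖
        ≤ ‖(liTrunc l k - liTrunc l (k + 1)) / ((k + 1 + 1 : ℕ) : ℂ)‖ +
          ‖liTrunc l k / (((k + 1 : ℕ) : ℂ) * ((k + 1 + 1 : ℕ) : ℂ))‖ := norm_add_le _ _
      _ = ‖liTrunc l k - liTrunc l (k + 1)‖ / ((k : ℝ) + 2) +
          ‖liTrunc l k‖ / (((k : ℝ) + 1) * ((k : ℝ) + 2)) := by
          rw [norm_div, norm_div, norm_mul, hn2, hn]
      _ ≤ (D / Real.sqrt ((k : ℝ) + 1)) / ((k : ℝ) + 1) +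
          (C * Real.sqrt ((k : ℝ) + 1)) / (((k : ℝ) + 1) * ((k : ℝ) + 1)) := by
          gcongr
          · exact hd k
          · linarith
          · exact hf k
          · linarith
      _ = (D + C) * q k := by
          rw [q]
          generalize Real.sqrt ((k : ℝ) + 1) = s at *
          rw [← h3]
          field_simp

theorem norm_of_pow {N : ℕ} (hN : N ≠ 0) {z : ℂ} (h : z ^ N = 1) : ‖z‖ = 1 :=
  Complex.norm_eq_one_of_pow_eq_one h hN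

theorem conv_adm {N w : ℕ} (hN : N ≠ 0) {l : List (ℕ × ℂ)} (hl : Adm N w l) :
    ∃ y, Tendsto (liTrunc l) atTop (𝓝 y) := by
  obtain ⟨h0, h1, h2, h3⟩ := hl
  cases l with
  | nil => exact absurd rfl h0
  | cons p l =>
    have hp := h1 p (by simp)
    have hl' : ∀ q ∈ l, 0 < q.1 ∧ ‖q.2‖ = 1 := fun q hq =>
      ⟨(h1 q (by simp [hq])).1, norm_of_pow hN (h1 q (by simp [hq])).2⟩
    have hz := norm_of_pow hN hp.2
    rw [liTrunc_cons]
    rcases Nat.lt_or_ge p.1 2 with h | h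
    · have h1 : p.1 = 1 := by have := hp.1; omega
      have e : p = (1, p.2) := by ext <;> simp [h1]
      rw [e]
      refine conv_one' hz ?_ l hl'
      intro h4
      apply h3
      rw [e, h4]
      rfl
    · obtain ⟨C, hC⟩ := Gr_li l hl'
      exact conv_two' hC h hz

theorem glim {N w : ℕ} (hN : N ≠ 0) {f : ℕ → ℂ} (hf : f ∈ A N w) :
    ∃ y ∈ Z N w, Tendsto f atTop (𝓝 y) := by
  induction hf using Submodule.span_induction with
  | mem f h =>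
    obtain ⟨l, hl, rfl⟩ := h
    obtain ⟨y, hy⟩ := conv_adm hN hl
    exact ⟨y, Submodule.subset_span ⟨l, hl, hy⟩, hy⟩
  | zero => exact ⟨0, Submodule.zero_mem _, tendsto_const_nhds⟩
  | add f g _ _ hf hg =>
    obtain ⟨y, hy, hy'⟩ := hf
    obtain ⟨z, hz, hz'⟩ := hg
    exact ⟨y + z, add_mem hy hz, hy'.add hz'⟩
  | smul c f _ hf =>
    obtain ⟨y, hy, hy'⟩ := hf
    exact ⟨c • y, Submodule.smul_mem _ _ hy, hy'.const_smul c⟩

theorem gval {N w : ℕ} {y : ℂ} (hy : y ∈ Z N w) :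
    ∃ f ∈ A N w, Tendsto f atTop (𝓝 y) := by
  induction hy using Submodule.span_induction with
  | mem y h =>
    obtain ⟨l, hl, h⟩ := h
    exact ⟨liTrunc l, Submodule.subset_span ⟨l, hl, rfl⟩, h⟩
  | zero => exact ⟨0, zero_mem _, tendsto_const_nhds⟩
  | add y z _ _ hy hz =>
    obtain ⟨f, hf, hf'⟩ := hy
    obtain ⟨g, hg, hg'⟩ := hz
    exact ⟨f + g, add_mem hf hg, hf'.add hg'⟩
  | smul c y _ h =>
    obtain ⟨f, hf, hf'⟩ := h
    exact ⟨c • f, Submodule.smul_mem _ _ hf, hf'.const_smul c⟩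

/-- the spaces `𝔷_w(N)` multiply -/
theorem Z_mul {N v w : ℕ} (hN : N ≠ 0) {y z : ℂ} (hy : y ∈ Z N v) (hz : z ∈ Z N w) :
    y * z ∈ Z N (v + w) := by
  obtain ⟨f, hf, hf'⟩ := gval hy
  obtain ⟨g, hg, hg'⟩ := gval hz
  obtain ⟨u, hu, hu'⟩ := glim hN (mul_mem_A hf hg)
  rwa [tendsto_nhds_unique (hf'.mul hg') hu']

end

end Pool.Agent.TH981.AMZ
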