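import Mathlib
import Pool.Agent.TH981.AMZ.CPow
import Pool.Agent.TH981.AMZ.GConv

/-!
Values at `ω` and the product of the spaces `C w`.
-/

set_option autoImplicit false

open Filter Topology Finset

namespace Pool.Agent.TH981.AMZ

noncomputable section

/-- the binary word of a composition -/
def bw : List ℕ → List Bool
  | [] => []
  | a :: l => List.replicate (a - 1) false ++ true :: bw l

theorem bw_succ (a : ℕ) (ha : 0 < a) (l : List ℕ) : bw ((a + 1) :: l) = false :: bw (a :: l) := by
  obtain ⟨b, rfl⟩ : ∃ b, a = b + 1 := ⟨a - 1, by omega⟩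
  simp [bw, List.replicate_succ]

theorem bw_one (l : List ℕ) : bw (1 :: l) = true :: bw l := by simp [bw]

theorem bw_length (l : List ℕ) (hl : ∀ a ∈ l, 0 < a) : (bw l).length = l.sum := by
  induction l with
  | nil => rfl
  | cons a l ih =>
    have ha := hl a (by simp)
    simp only [bw, List.length_append, List.length_replicate, List.length_cons, List.sum_cons]
    rw [ih (fun b hb => hl b (by simp [hb]))]
    omega

theorem exists_comp (u : List Bool) (hu : Vd u) :
    ∃ l : List ℕ, (∀ a ∈ l, 0 < a) ∧ bw l = u := by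
  induction u with
  | nil => exact ⟨[], by simp, rfl⟩
  | cons a u ih =>
    obtain ⟨l, hl, rfl⟩ := ih hu.2
    cases a with
    | true =>
      refine ⟨1 :: l, ?_, bw_one l⟩
      intro b hb
      rcases List.mem_cons.mp hb with rfl | hb
      · exact one_pos
      · exact hl b hb
    | false =>
      cases l with
      | nil =>
        have := hu.1 rfl
        simp at this
      | cons c l =>
        have hc := hl c (by simp)
        refine ⟨(c + 1) :: l, ?_, bw_succ c hc l⟩
        intro b hb
        rcases List.mem_cons.mp hb with rfl | hb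
        · omega
        · exact hl b (by simp [hb])

/-- partial sums of coefficients -/
def ps (F : PowerSeries ℂ) (z : ℂ) (M : ℕ) : ℂ := ∑ i ∈ range M, PowerSeries.coeff i F * z ^ i

theorem coeff_yv_mul (F : PowerSeries ℂ) (k : ℕ) :
    PowerSeries.coeff (k + 1) (yv true * F) = ps F 1 (k + 1) := by
  rw [PowerSeries.coeff_mul, ps]
  rw [Finset.Nat.sum_antidiagonal_eq_sum_range_succ
    (fun i j => PowerSeries.coeff i (yv true) * PowerSeries.coeff j F) (k + 1),
    ← Finset.sum_range_reflect]
  rw [sum_range_succ]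
  have e0 : PowerSeries.coeff (k + 1 + 1 - 1 - (k + 1)) (yv true) = 0 := by
    simp [yv]
  rw [e0, zero_mul, add_zero]
  apply sum_congr rfl
  intro i hi
  have hi' := mem_range.mp hi
  have e1 : k + 1 + 1 - 1 - i = (k - i) + 1 := by omega
  have e2 : k + 1 - (k + 1 + 1 - 1 - i) = i := by omega
  rw [e2, e1]
  simp [yv]

theorem coeff_bw (a : ℕ) (ha : 0 < a) (l : List ℕ) (k : ℕ) :
    PowerSeries.coeff (k + 1) (Lb (bw (a :: l))) =
      ps (Lb (bw l)) 1 (k + 1) / ((k + 1 : ℕ) : ℂ) ^ a := by
  induction a with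
  | zero => omega
  | succ a ih =>
    rcases Nat.eq_zero_or_pos a with rfl | h
    · rw [zero_add, bw_one, Lb, Jn_apply, coeff_In, coeff_yv_mul, pow_one]
    · rw [bw_succ a h, Lb, Jn_apply, coeff_In]
      have : yv false = 1 := by simp [yv]
      rw [this, one_mul, ih h, pow_succ, div_div]

theorem ps_one (l : List ℕ) (hl : ∀ a ∈ l, 0 < a) (k : ℕ) :
    ps (Lb (bw l)) 1 (k + 1) = liTrunc (l.map (fun b => (b, (1 : ℂ)))) k := by
  induction l generalizing k with
  | nil =>
    rw [ps, sum_range_succ']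
    simp [bw, Lb, PowerSeries.coeff_one, liTrunc]
  | cons a l ih =>
    have ha := hl a (by simp)
    rw [ps, sum_range_succ', List.map_cons, liTrunc_cons, cg_apply]
    have h0 : PowerSeries.coeff 0 (Lb (bw (a :: l))) = 0 :=
      coeff_zero_Lb (by simp [bw])
    rw [h0, zero_mul, add_zero]
    apply sum_congr rfl
    intro i _
    rw [coeff_bw a ha, ih (fun b hb => hl b (by simp [hb]))]
    simp only [one_pow]
    ring

theorem ps_om (a : ℕ) (ha : 0 < a) (l : List ℕ) (hl : ∀ a ∈ l, 0 < a) (z : ℂ) (M : ℕ) :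
    ps (Lb (bw (a :: l))) z (M + 1) =
      liTrunc ((a, z) :: l.map (fun b => (b, (1 : ℂ)))) M := by
  rw [ps, sum_range_succ', liTrunc_cons, cg_apply]
  have h0 : PowerSeries.coeff 0 (Lb (bw (a :: l))) = 0 :=
    coeff_zero_Lb (by simp [bw])
  rw [h0, zero_mul, add_zero]
  apply sum_congr rfl
  intro i _
  rw [coeff_bw a ha, ps_one l hl]
  ring

theorem om_pow : om ^ 6 = 1 := by
  rw [om, ← Complex.exp_nat_mul]
  have : ((6 : ℕ) : ℂ) * (((Real.pi / 3 : ℝ) : ℂ) * Complex.I) = 2 * Real.pi * Complex.I := by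
    push_cast; ring
  rw [this, Complex.exp_two_pi_mul_I]

theorem norm_om : ‖om‖ = 1 := norm_of_pow (N := 6) (by norm_num) om_pow

theorem om_eq : om = 1 / 2 + (Real.sqrt 3 / 2 : ℝ) * Complex.I := by
  rw [om, Complex.exp_mul_I, ← Complex.ofReal_cos, ← Complex.ofReal_sin, Real.cos_pi_div_three,
    Real.sin_pi_div_three]
  push_cast
  ring

theorem om_ne : om ≠ 1 := by
  intro h
  have h1 := congrArg Complex.im h
  rw [om_eq] at h1
  simp at h1

theorem ps_tendsto_iff {F : PowerSeries ℂ} {z y : ℂ} :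
    Tendsto (ps F z) atTop (𝓝 y) ↔ Tendsto (fun M => ps F z (M + 1)) atTop (𝓝 y) :=
  (tendsto_add_atTop_iff_nat 1).symm

theorem W_lim {n : ℕ} (hn : 1 ≤ n) {F : PowerSeries ℂ} (hF : F ∈ W n) :
    ∃ y ∈ C n, Tendsto (ps F om) atTop (𝓝 y) := by
  induction hF using Submodule.span_induction with
  | mem F h =>
    obtain ⟨u, hu, hlen, rfl⟩ := h
    obtain ⟨l, hl, rfl⟩ := exists_comp u hu
    cases l with
    | nil => simp [bw] at hlen; omega
    | cons a l =>
      have ha := hl a (by simp)
      have hl' : ∀ b ∈ l, 0 < b := fun b hb => hl b (by simp [hb])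
      have hs := bw_length (a :: l) hl
      rw [hlen] at hs
      have hadm : Adm 6 n ((a, om) :: l.map (fun b => (b, (1 : ℂ)))) := by
        refine ⟨by simp, ?_, ?_, ?_⟩
        · intro p hp
          rcases List.mem_cons.mp hp with rfl | hp
          · exact ⟨ha, om_pow⟩
          · obtain ⟨b, hb, rfl⟩ := List.mem_map.mp hp
            exact ⟨hl' b hb, one_pow _⟩
        · rw [hs]
          simp only [List.map_cons, List.map_map, List.sum_cons]
          congr 1
          have : (Prod.fst ∘ fun b : ℕ => (b, (1 : ℂ))) = id := by funext b; rfl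
          rw [this, List.map_id]
        · intro h
          simp only [List.head?_cons, Option.some.injEq, Prod.mk.injEq] at h
          exact om_ne h.2
      obtain ⟨y, hy⟩ := conv_adm (N := 6) (by norm_num) hadm
      refine ⟨y, Submodule.subset_span ⟨a, l, ha, hl', by simpa using hs.symm, hy⟩, ?_⟩
      rw [ps_tendsto_iff]
      exact hy.congr (fun M => (ps_om a ha l hl' om M).symm)
  | zero =>
    refine ⟨0, Submodule.zero_mem _, ?_⟩
    have : ps 0 om = fun _ => 0 := by funext M; simp [ps]
    rw [this]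
    exact tendsto_const_nhds
  | add F G _ _ hF hG =>
    obtain ⟨y, hy, hy'⟩ := hF
    obtain ⟨z, hz, hz'⟩ := hG
    refine ⟨y + z, add_mem hy hz, (hy'.add hz').congr (fun M => ?_)⟩
    simp [ps, add_mul, sum_add_distrib]
  | smul c F _ hF =>
    obtain ⟨y, hy, hy'⟩ := hF
    refine ⟨c • y, Submodule.smul_mem _ _ hy, (hy'.const_smul c).congr (fun M => ?_)⟩
    have e : (c • F : PowerSeries ℂ) = ((c : ℂ)) • F := by
      ext n; simp [Rat.smul_def]
    rw [e]
    simp [ps, Rat.smul_def, mul_sum, mul_assoc]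

theorem C_val {n : ℕ} {y : ℂ} (hy : y ∈ C n) :
    ∃ F ∈ W n, Tendsto (ps F om) atTop (𝓝 y) := by
  induction hy using Submodule.span_induction with
  | mem y h =>
    obtain ⟨a, l, ha, hl, hs, hy⟩ := h
    have hal : ∀ b ∈ a :: l, 0 < b := by
      intro b hb
      rcases List.mem_cons.mp hb with rfl | hb
      · exact ha
      · exact hl b hb
    refine ⟨Lb (bw (a :: l)), Submodule.subset_span ⟨bw (a :: l), ?_, ?_, rfl⟩, ?_⟩
    · have : ∀ m : List ℕ, (∀ b ∈ m, 0 < b) → Vd (bw m) := by
        intro m hm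
        induction m with
        | nil => trivial
        | cons c m ih =>
          have hc := hm c (by simp)
          have ih' := ih (fun b hb => hm b (by simp [hb]))
          induction c with
          | zero => omega
          | succ c ihc =>
            rcases Nat.eq_zero_or_pos c with rfl | h
            · rw [zero_add, bw_one]
              exact ⟨fun _ => rfl, ih'⟩
            · rw [bw_succ c h]
              refine ⟨fun h0 => ?_, ?_⟩
              · simp [bw] at h0
              · apply ihc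
                · intro b hb
                  rcases List.mem_cons.mp hb with rfl | hb
                  · exact h
                  · exact hm b (by simp [hb])
                · exact h
      exact this _ hal
    · rw [bw_length _ hal]; simpa using hs
    · rw [ps_tendsto_iff]
      exact hy.congr (fun M => (ps_om a ha l hl om M).symm)
  | zero =>
    refine ⟨0, Submodule.zero_mem _, ?_⟩
    have : ps 0 om = fun _ => 0 := by funext M; simp [ps]
    rw [this]
    exact tendsto_const_nhds
  | add y z _ _ hy hz =>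
    obtain ⟨F, hF, hF'⟩ := hy
    obtain ⟨G, hG, hG'⟩ := hz
    refine ⟨F + G, add_mem hF hG, (hF'.add hG').congr (fun M => ?_)⟩
    simp [ps, add_mul, sum_add_distrib]
  | smul c y _ h =>
    obtain ⟨F, hF, hF'⟩ := h
    refine ⟨c • F, Submodule.smul_mem _ _ hF, (hF'.const_smul c).congr (fun M => ?_)⟩
    have e : (c • F : PowerSeries ℂ) = ((c : ℂ)) • F := by
      ext n; simp [Rat.smul_def]
    rw [e]
    simp [ps, Rat.smul_def, mul_sum, mul_assoc]

/-- Abel: the value inside the disc -/
def inn (F : PowerSeries ℂ) (r : ℝ) : ℂ := ∑' i, PowerSeries.coeff i F * (om * r) ^ i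

theorem abel {F : PowerSeries ℂ} {y : ℂ} (h : Tendsto (ps F om) atTop (𝓝 y)) :
    Tendsto (inn F) (𝓝[<] 1) (𝓝 y) := by
  have h2 := Complex.tendsto_tsum_powerSeries_nhdsWithin_lt
    (f := fun i => PowerSeries.coeff i F * om ^ i) h
  rw [tendsto_map'_iff] at h2
  refine h2.congr (fun r => ?_)
  simp only [Function.comp_apply, inn]
  apply tsum_congr
  intro i
  rw [mul_pow]
  ring

theorem bdd_coeff {F : PowerSeries ℂ} {y : ℂ} (h : Tendsto (ps F om) atTop (𝓝 y)) :
    ∃ B : ℝ, ∀ i, ‖PowerSeries.coeff i F‖ ≤ B := by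
  have h1 : Tendsto (fun M => ps F om (M + 1) - ps F om M) atTop (𝓝 (y - y)) :=
    ((tendsto_add_atTop_iff_nat 1).mpr h).sub h
  have h2 := h1.norm.bddAbove_range
  obtain ⟨B, hB⟩ := h2
  refine ⟨B, fun i => ?_⟩
  have h3 := hB (Set.mem_range_self i)
  have e : ps F om (i + 1) - ps F om i = PowerSeries.coeff i F * om ^ i := by
    simp [ps, sum_range_succ]
  change ‖ps F om (i + 1) - ps F om i‖ ≤ B at h3
  rw [e, norm_mul, norm_pow, norm_om, one_pow, mul_one] at h3
  exact h3

theorem summ_inn {F : PowerSeries ℂ} {B : ℝ} (h : ∀ i, ‖PowerSeries.coeff i F‖ ≤ B) {r : ℝ}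
    (h0 : 0 < r) (h1 : r < 1) : Summable fun i => ‖PowerSeries.coeff i F * (om * r) ^ i‖ := by
  refine Summable.of_nonneg_of_le (fun _ => norm_nonneg _) (fun i => ?_)
    ((summable_geometric_of_lt_one h0.le h1).mul_left B)
  rw [norm_mul, norm_pow, norm_mul, norm_om, one_mul, Complex.norm_real, Real.norm_eq_abs,
    abs_of_pos h0]
  exact mul_le_mul_of_nonneg_right (h i) (by positivity)

theorem inn_mul {F G : PowerSeries ℂ} {y z : ℂ} (hF : Tendsto (ps F om) atTop (𝓝 y))
    (hG : Tendsto (ps G om) atTop (𝓝 z)) {r : ℝ} (h0 : 0 < r) (h1 : r < 1) :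
    inn (F * G) r = inn F r * inn G r := by
  obtain ⟨B, hB⟩ := bdd_coeff hF
  obtain ⟨B', hB'⟩ := bdd_coeff hG
  rw [inn, inn, inn,
    tsum_mul_tsum_eq_tsum_sum_antidiagonal_of_summable_norm (summ_inn hB h0 h1)
      (summ_inn hB' h0 h1)]
  apply tsum_congr
  intro n
  rw [PowerSeries.coeff_mul, sum_mul]
  apply sum_congr rfl
  rintro ⟨i, j⟩ hij
  rw [Finset.HasAntidiagonal.mem_antidiagonal] at hij
  change i + j = n at hij
  change PowerSeries.coeff i F * PowerSeries.coeff j G * (om * r) ^ n =
    PowerSeries.coeff i F * (om * r) ^ i * (PowerSeries.coeff j G * (om * r) ^ j)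
  rw [← hij, pow_add]
  ring

/-- the spaces of multiple Clausen values multiply -/
theorem C_mul {v w : ℕ} (hv : 1 ≤ v) {y z : ℂ} (hy : y ∈ C v) (hz : z ∈ C w) :
    y * z ∈ C (v + w) := by
  obtain ⟨F, hF, hF'⟩ := C_val hy
  obtain ⟨G, hG, hG'⟩ := C_val hz
  obtain ⟨u, hu, hu'⟩ := W_lim (by omega) (mul_W hF hG)
  have h1 := abel hu'
  have h2 := (abel hF').mul (abel hG')
  have h3 : Tendsto (inn (F * G)) (𝓝[<] 1) (𝓝 (y * z)) := by
    refine h2.congr' ?_
    have h7 : Set.Ioo (0 : ℝ) 1 ∈ 𝓝[<] (1 : ℝ) := Ioo_mem_nhdsLT (by norm_num)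
    filter_upwards [h7] with r hr
    exact (inn_mul hF' hG' hr.1 hr.2).symm
  rwa [tendsto_nhds_unique h3 h1]

end

end Pool.Agent.TH981.AMZ
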