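import Mathlib
import Pool.Agent.TH981.AMZ.Conv
import Pool.Agent.TH981.AMZ.Defs

/-!
Limits of the truncated sums.
-/

set_option autoImplicit false

open Filter Topology Finset

namespace Pool.Agent.TH981.AMZ

noncomputable section

/-- the word of a composition -/
def wd (l : List ℕ) : List (ℕ × ℂ) := l.map (fun a => (a, (-1 : ℂ) ^ a))

theorem liTrunc_wd (l : List ℕ) : liTrunc (wd l) = S l := by
  induction l with
  | nil => funext M; simp [wd, liTrunc, S]
  | cons a l ih =>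
    funext M
    change liTrunc ((a, (-1 : ℂ) ^ a) :: wd l) M = cn a (S l) M
    rw [liTrunc, ih, cn_apply]
    apply sum_congr rfl
    intro k _
    congr 1
    rw [x, div_pow, ← pow_mul, ← pow_mul, mul_comm]

theorem adm_wd {l : List ℕ} (hne : l ≠ []) (hl : ∀ a ∈ l, 0 < a) : Adm 2 l.sum (wd l) := by
  refine ⟨by simpa [wd] using hne, ?_, ?_, ?_⟩
  · intro p hp
    obtain ⟨a, ha, rfl⟩ := List.mem_map.mp hp
    refine ⟨hl a ha, ?_⟩
    simp only
    rw [← pow_mul, mul_comm, pow_mul]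
    norm_num
  · congr 1
    rw [wd, List.map_map]
    have : (Prod.fst ∘ fun a : ℕ => (a, (-1 : ℂ) ^ a)) = id := by funext a; rfl
    rw [this, List.map_id]
  · cases l with
    | nil => exact absurd rfl hne
    | cons a l =>
      intro h
      simp only [wd, List.map_cons, List.head?_cons, Option.some.injEq, Prod.mk.injEq] at h
      obtain ⟨h1, h2⟩ := h
      rw [h1] at h2
      norm_num at h2

theorem lim_mem {w : ℕ} (hw : 1 ≤ w) {f : ℕ → ℂ} (hf : f ∈ V w) :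
    ∃ y ∈ Z 2 w, Tendsto f atTop (𝓝 y) := by
  induction hf using Submodule.span_induction with
  | mem f h =>
    obtain ⟨l, hl, hs, rfl⟩ := h
    have hne : l ≠ [] := by
      rintro rfl
      simp at hs
      omega
    obtain ⟨y, hy⟩ := conv_S l hl hne
    refine ⟨y, Submodule.subset_span ⟨wd l, ?_, ?_⟩, hy⟩
    · rw [← hs]; exact adm_wd hne hl
    · rw [liTrunc_wd]; exact hy
  | zero => exact ⟨0, Submodule.zero_mem _, tendsto_const_nhds⟩
  | add f g _ _ hf hg =>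
    obtain ⟨y, hy, hy'⟩ := hf
    obtain ⟨z, hz, hz'⟩ := hg
    exact ⟨y + z, add_mem hy hz, hy'.add hz'⟩
  | smul c f _ hf =>
    obtain ⟨y, hy, hy'⟩ := hf
    refine ⟨c • y, Submodule.smul_mem _ _ hy, ?_⟩
    exact hy'.const_smul c

theorem lim_one : Tendsto (cn 1 1) atTop (𝓝 (-(Real.log 2 : ℂ))) := by
  obtain ⟨y, hy⟩ := conv_S [1] (by simp) (by simp)
  change Tendsto (cn 1 1) atTop (𝓝 y) at hy
  suffices h : y = -(Real.log 2 : ℂ) by rwa [h] at hy
  set f : ℕ → ℂ := fun n => (-1) ^ n / (n : ℂ) with hf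
  have h1 : Tendsto (fun n => ∑ i ∈ range n, f i) atTop (𝓝 y) := by
    rw [← tendsto_add_atTop_iff_nat 1]
    refine hy.congr (fun M => ?_)
    rw [sum_range_succ', cn_apply]
    simp [hf, x]
  have h2 := Complex.tendsto_tsum_powerSeries_nhdsWithin_lt h1
  rw [tendsto_map'_iff] at h2
  have h3 : Tendsto (fun r : ℝ => -Complex.log (1 + (r : ℂ))) (𝓝[<] (1 : ℝ))
      (𝓝 (-(Real.log 2 : ℂ))) := by
    have h4 : ContinuousAt (fun r : ℝ => -Complex.log (1 + (r : ℂ))) 1 := by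
      apply ContinuousAt.neg
      apply ContinuousAt.clog
      · fun_prop
      · left
        simp
    have h5 := h4.tendsto
    have h6 : -Complex.log (1 + ((1 : ℝ) : ℂ)) = -(Real.log 2 : ℂ) := by
      rw [Complex.ofReal_log (by norm_num)]
      norm_num
    rw [h6] at h5
    exact h5.mono_left nhdsWithin_le_nhds
  refine tendsto_nhds_unique h2 (h3.congr' ?_)
  have h7 : Set.Ioo (0 : ℝ) 1 ∈ 𝓝[<] (1 : ℝ) := Ioo_mem_nhdsLT (by norm_num)
  filter_upwards [h7] with r hr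
  have h8 := Complex.hasSum_taylorSeries_neg_log (z := -(r : ℂ)) (by
    rw [norm_neg, Complex.norm_real, Real.norm_eq_abs, abs_of_pos hr.1]
    exact hr.2)
  have h9 := h8.tsum_eq
  simp only [Function.comp_apply]
  rw [sub_neg_eq_add] at h9
  rw [← h9]
  apply tsum_congr
  intro n
  rw [hf]
  simp only
  rw [neg_pow]
  ring

theorem lim_two : Tendsto (cn 2 1) atTop (𝓝 ((Real.pi : ℂ) ^ 2 / 6)) := by
  have h := hasSum_zeta_two.tendsto_sum_nat
  rw [← tendsto_add_atTop_iff_nat 1] at h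
  have h2 := (Complex.continuous_ofReal.tendsto _).comp h
  have e : ((Real.pi ^ 2 / 6 : ℝ) : ℂ) = (Real.pi : ℂ) ^ 2 / 6 := by push_cast; rfl
  rw [e] at h2
  refine h2.congr (fun M => ?_)
  simp only [Function.comp_apply]
  rw [sum_range_succ', cn_apply]
  push_cast
  simp only [ne_eq, OfNat.ofNat_ne_zero, not_false_eq_true, zero_pow, div_zero, add_zero]
  apply sum_congr rfl
  intro k _
  rw [x, div_pow, ← pow_mul, mul_comm (k + 1) 2, pow_mul]
  simp

theorem mono_lim (m j : ℕ) (h : 1 ≤ m + 2 * j) :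
    (Real.log 2 : ℂ) ^ m * (Real.pi : ℂ) ^ (2 * j) ∈ Z 2 (m + 2 * j) := by
  obtain ⟨y, hy, hy'⟩ := lim_mem h (mono_mem m j)
  have h1 : Tendsto (cn 1 1 ^ m * cn 2 1 ^ j) atTop
      (𝓝 ((-(Real.log 2 : ℂ)) ^ m * ((Real.pi : ℂ) ^ 2 / 6) ^ j)) :=
    (lim_one.pow m).mul (lim_two.pow j)
  have h2 := tendsto_nhds_unique hy' h1
  have e : (Real.log 2 : ℂ) ^ m * (Real.pi : ℂ) ^ (2 * j) = ((-1) ^ m * 6 ^ j : ℚ) • y := by
    rw [h2, Rat.smul_def, neg_pow (Real.log 2 : ℂ) m, div_pow, pow_mul]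
    push_cast
    have h3 : ((-1 : ℂ) ^ m) * (-1) ^ m = 1 := by
      rw [← mul_pow]; norm_num
    have h4 : (6 : ℂ) ^ j ≠ 0 := pow_ne_zero _ (by norm_num)
    have h5 : ((-1 : ℂ) ^ m * 6 ^ j) *
        ((-1) ^ m * (Real.log 2 : ℂ) ^ m * (((Real.pi : ℂ) ^ 2) ^ j / 6 ^ j)) =
        ((-1) ^ m * (-1) ^ m) * ((Real.log 2 : ℂ) ^ m * ((Real.pi : ℂ) ^ 2) ^ j) := by
      field_simp
    rw [h5, h3, one_mul]
  rw [e]
  exact Submodule.smul_mem _ _ hy

end

end Pool.Agent.TH981.AMZ
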