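import Mathlib
import Pool.Agent.TH981.AMZ.Lim
import Pool.Agent.H297R2.BakerThm

/-!
`log 2 / π` is transcendental, and the lower bound.
-/

set_option autoImplicit false

open Filter Topology Finset

namespace Pool.Agent.TH981.AMZ

noncomputable section

/-- `log 2 / π` -/
def tau : ℂ := (Real.log 2 : ℂ) / (Real.pi : ℂ)

theorem logs_ind : LinearIndependent ℚ ![(Real.log 2 : ℂ), Real.pi * Complex.I] := by
  rw [LinearIndependent.pair_iff]
  intro s t hst
  rw [Rat.smul_def, Rat.smul_def] at hst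
  have e : ((s : ℂ) * (Real.log 2 : ℂ) + (t : ℂ) * ((Real.pi : ℂ) * Complex.I)) =
      (((s : ℝ) * Real.log 2 : ℝ) : ℂ) + (((t : ℝ) * Real.pi : ℝ) : ℂ) * Complex.I := by
    push_cast; ring
  rw [e] at hst
  have hre := congrArg Complex.re hst
  have him := congrArg Complex.im hst
  rw [Complex.add_re, Complex.ofReal_re, Complex.re_ofReal_mul, Complex.I_re, mul_zero,
    add_zero, Complex.zero_re] at hre
  rw [Complex.add_im, Complex.ofReal_im, Complex.im_ofReal_mul, Complex.I_im, mul_one,
    zero_add, Complex.zero_im] at him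
  have hl : Real.log 2 ≠ 0 := by
    have := Real.log_two_gt_d9
    intro h0
    rw [h0] at this
    norm_num at this
  refine ⟨?_, ?_⟩
  · rcases mul_eq_zero.mp hre with h | h
    · exact_mod_cast h
    · exact absurd h hl
  · rcases mul_eq_zero.mp him with h | h
    · exact_mod_cast h
    · exact absurd h Real.pi_ne_zero

theorem tau_transcendental : Transcendental ℚ tau := by
  intro halg
  have hpi : (Real.pi : ℂ) ≠ 0 := by exact_mod_cast Real.pi_ne_zero
  have hI : IsAlgebraic ℚ Complex.I := by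
    refine ⟨Polynomial.X ^ 2 + 1, ?_, ?_⟩
    · intro h
      have := congrArg (Polynomial.eval 0) h
      simp at this
    · simp
  have h := Pool.Agent.H297R2.baker (ι := Fin 2) ![(Real.log 2 : ℂ), Real.pi * Complex.I]
    (by
      intro i
      fin_cases i
      · change IsAlgebraic ℚ (Complex.exp (Real.log 2 : ℂ))
        rw [← Complex.ofReal_exp, Real.exp_log (by norm_num)]
        exact_mod_cast isAlgebraic_algebraMap (R := ℚ) (A := ℂ) (2 : ℚ)
      · change IsAlgebraic ℚ (Complex.exp (Real.pi * Complex.I))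
        rw [Complex.exp_pi_mul_I]
        have := isAlgebraic_algebraMap (R := ℚ) (A := ℂ) (-1 : ℚ)
        simpa using this)
    logs_ind
    ![1, tau * Complex.I]
    (by
      intro i
      fin_cases i
      · exact isAlgebraic_one
      · exact halg.mul hI)
    (by
      rw [Fin.sum_univ_two]
      change 1 * (Real.log 2 : ℂ) + tau * Complex.I * (Real.pi * Complex.I) = 0
      rw [tau]
      have e : (Real.log 2 : ℂ) / (Real.pi : ℂ) * Complex.I * (Real.pi * Complex.I) =
          (Real.log 2 : ℂ) * (Complex.I ^ 2) := by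
        field_simp
      rw [e, Complex.I_sq]
      ring) 0
  exact one_ne_zero h

theorem lin_pow : LinearIndependent ℚ (fun n : ℕ => tau ^ n) := by
  have h := transcendental_iff_injective.mp tau_transcendental
  have h2 := (Polynomial.basisMonomials ℚ).linearIndependent.map'
    (Polynomial.aeval tau).toLinearMap (LinearMap.ker_eq_bot.mpr h)
  have e : (⇑(Polynomial.aeval tau).toLinearMap ∘ ⇑(Polynomial.basisMonomials ℚ)) =
      fun n : ℕ => tau ^ n := by
    funext n; simp
  rwa [e] at h2

/-- the elements `(log 2)^(w-2j) π^(2j)` -/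
def el (w : ℕ) (j : Fin (w / 2 + 1)) : ℂ :=
  (Real.log 2 : ℂ) ^ (w - 2 * j.1) * (Real.pi : ℂ) ^ (2 * j.1)

theorem el_ind (w : ℕ) : LinearIndependent ℚ (el w) := by
  have hpi : (Real.pi : ℂ) ≠ 0 := by exact_mod_cast Real.pi_ne_zero
  have hpw : (Real.pi : ℂ) ^ w ≠ 0 := pow_ne_zero _ hpi
  have hinj : Function.Injective (fun j : Fin (w / 2 + 1) => w - 2 * j.1) := by
    intro i j hij
    have hi := i.2
    have hj := j.2
    simp only at hij
    ext
    omega
  have h1 := lin_pow.comp _ hinj
  have h2 := h1.map' (LinearMap.mulLeft ℚ ((Real.pi : ℂ) ^ w)) (by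
    rw [LinearMap.ker_eq_bot]
    intro a b hab
    exact mul_left_cancel₀ hpw hab)
  have e : (⇑(LinearMap.mulLeft ℚ ((Real.pi : ℂ) ^ w)) ∘
      ((fun n : ℕ => tau ^ n) ∘ fun j : Fin (w / 2 + 1) => w - 2 * j.1)) = el w := by
    funext j
    have hj := j.2
    simp only [Function.comp_apply, LinearMap.mulLeft_apply, tau, el, div_pow]
    have e2 : (Real.pi : ℂ) ^ w = (Real.pi : ℂ) ^ (w - 2 * j.1) * (Real.pi : ℂ) ^ (2 * j.1) := by
      rw [← pow_add]
      congr 1
      omega
    rw [e2]
    have h3 : (Real.pi : ℂ) ^ (w - 2 * j.1) ≠ 0 := pow_ne_zero _ hpi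
    field_simp
  rwa [e] at h2

theorem el_mem {w : ℕ} (hw : 1 ≤ w) (j : Fin (w / 2 + 1)) : el w j ∈ Z 2 w := by
  have hj := j.2
  have h := mono_lim (w - 2 * j.1) j.1 (by omega)
  have e : w - 2 * j.1 + 2 * j.1 = w := by omega
  rw [e] at h
  exact h

theorem lower (w : ℕ) (hw : 1 ≤ w) : ((w / 2 + 1 : ℕ) : Cardinal) ≤ Module.rank ℚ (Z 2 w) := by
  have h1 : LinearIndependent ℚ (fun j : Fin (w / 2 + 1) => (⟨el w j, el_mem hw j⟩ : Z 2 w)) := by
    apply LinearIndependent.of_comp (Z 2 w).subtype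
    exact el_ind w
  have h2 := h1.cardinal_le_rank
  rwa [Cardinal.mk_fin] at h2

end

end Pool.Agent.TH981.AMZ
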