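import Mathlib
import Pool.Agent.TH981.AMZ.GConv
import Pool.Agent.TH981.AMZ.Ind

/-!
Growth of `dim Z 2 w`.
-/

set_option autoImplicit false

open Filter Topology Finset

namespace Pool.Agent.TH981.AMZ

noncomputable section

theorem finite_letters {N : ℕ} (hN : N ≠ 0) (w : ℕ) :
    {p : ℕ × ℂ | p.1 ≤ w ∧ p.2 ^ N = 1}.Finite := by
  have h1 : {z : ℂ | z ^ N = 1}.Finite := by
    have : {z : ℂ | z ^ N = 1} ⊆ ((Polynomial.nthRoots N (1 : ℂ)).toFinset : Set ℂ) := by
      intro z hz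
      simp only [Finset.mem_coe, Multiset.mem_toFinset]
      rw [Polynomial.mem_nthRoots (Nat.pos_of_ne_zero hN)]
      exact hz
    exact (Finset.finite_toSet _).subset this
  exact ((Set.finite_Iic w).prod h1).subset (fun p hp => ⟨hp.1, hp.2⟩)

theorem finite_adm {N : ℕ} (hN : N ≠ 0) (w : ℕ) : {l : List (ℕ × ℂ) | Adm N w l}.Finite := by
  have hF := finite_letters hN w
  set F : Set (ℕ × ℂ) := {p : ℕ × ℂ | p.1 ≤ w ∧ p.2 ^ N = 1} with hFdef
  have : Finite F := hF
  refine ((List.finite_length_le F w).image (List.map Subtype.val)).subset ?_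
  rintro l ⟨h0, h1, h2, h3⟩
  have h4 : ∀ p ∈ l, p ∈ F := by
    intro p hp
    refine ⟨?_, (h1 p hp).2⟩
    rw [← h2]
    exact List.single_le_sum (fun _ _ => Nat.zero_le _) _ (List.mem_map_of_mem hp)
  have h5 : l.length ≤ w := by
    rw [← h2]
    have h6 : (l.map Prod.fst).length ≤ (l.map Prod.fst).sum := by
      apply List.length_le_sum_of_one_le
      intro i hi
      obtain ⟨p, hp, rfl⟩ := List.mem_map.mp hi
      exact (h1 p hp).1
    simpa using h6
  lift l to List F using h4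
  refine ⟨l, ?_, rfl⟩
  simpa using h5

theorem fin_Z {N : ℕ} (hN : N ≠ 0) (w : ℕ) : FiniteDimensional ℚ (Z N w) := by
  apply FiniteDimensional.span_of_finite
  refine ((finite_adm hN w).image (fun l => limUnder atTop (liTrunc l))).subset ?_
  rintro y ⟨l, hl, hy⟩
  exact ⟨l, hl, hy.limUnder_eq⟩

theorem log_mem : (Real.log 2 : ℂ) ∈ Z 2 1 := by
  have h := mono_lim 1 0 (by norm_num)
  simpa using h

theorem pi_mem : (Real.pi : ℂ) ^ 2 ∈ Z 2 2 := by
  have h := mono_lim 0 1 (by norm_num)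
  simpa using h

theorem log_ne : (Real.log 2 : ℂ) ≠ 0 := by
  have := Real.log_two_gt_d9
  have h : Real.log 2 ≠ 0 := by linarith
  exact_mod_cast h

theorem pi_ne : (Real.pi : ℂ) ≠ 0 := by exact_mod_cast Real.pi_ne_zero

theorem d_mono (w : ℕ) :
    Module.finrank ℚ (Z 2 w) ≤ Module.finrank ℚ (Z 2 (w + 1)) := by
  have := fin_Z (N := 2) (by norm_num) (w + 1)
  have h : ∀ y ∈ Z 2 w, LinearMap.mulLeft ℚ (Real.log 2 : ℂ) y ∈ Z 2 (w + 1) := by
    intro y hy
    rw [LinearMap.mulLeft_apply, mul_comm]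
    exact Z_mul (by norm_num) hy log_mem
  refine LinearMap.finrank_le_finrank_of_injective
    (f := (LinearMap.mulLeft ℚ (Real.log 2 : ℂ)).restrict h) ?_
  intro a b hab
  have := congrArg Subtype.val hab
  simp only [LinearMap.coe_restrict_apply, LinearMap.mulLeft_apply] at this
  exact Subtype.ext (mul_left_cancel₀ log_ne this)

theorem Z_ne_bot {w : ℕ} (hw : 1 ≤ w) : Z 2 w ≠ ⊥ := by
  have h := mono_lim w 0 (by omega)
  intro h0
  rw [mul_zero, add_zero, h0, Submodule.mem_bot, pow_zero, mul_one] at h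
  exact pow_ne_zero _ log_ne h

theorem alg_of_inv (N : Submodule ℚ ℂ) (hfg : N.FG) (hN : N ≠ ⊥) (t : ℂ)
    (h : ∀ y ∈ N, t * y ∈ N) : IsAlgebraic ℚ t :=
  (isIntegral_of_smul_mem_submodule (R := ℚ) (A := ℂ) (M := ℂ) N hN hfg t
    (fun n hn => h n hn)).isAlgebraic

/-- If `b A ⊆ B` and `c A ⊆ B` with `b, c ≠ 0` and `c / b` transcendental then
`dim A + 1 ≤ dim B`. -/
theorem step_gen (A B : Submodule ℚ ℂ) [FiniteDimensional ℚ A] [FiniteDimensional ℚ B]
    (hA : A ≠ ⊥) {b c : ℂ} (hb : b ≠ 0) (hbA : ∀ y ∈ A, b * y ∈ B) (hcA : ∀ y ∈ A, c * y ∈ B)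
    (ht : Transcendental ℚ (c / b)) :
    Module.finrank ℚ A + 1 ≤ Module.finrank ℚ B := by
  by_contra hcon
  have hle : Module.finrank ℚ B ≤ Module.finrank ℚ A := by omega
  set P : Submodule ℚ ℂ := A.map (LinearMap.mulLeft ℚ b) with hP
  have hPle : P ≤ B := by
    rintro _ ⟨y, hy, rfl⟩
    exact hbA y hy
  have hinj : Function.Injective (LinearMap.mulLeft ℚ b) := by
    intro u v huv
    exact mul_left_cancel₀ hb huv
  have hPr : Module.finrank ℚ P = Module.finrank ℚ A :=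
    (Submodule.equivMapOfInjective _ hinj A).finrank_eq.symm
  have hPeq : P = B :=
    Submodule.eq_of_le_of_finrank_le hPle (by rw [hPr]; exact hle)
  have hinv : ∀ y ∈ A, (c / b) * y ∈ A := by
    intro y hy
    have h1 : c * y ∈ B := hcA y hy
    rw [← hPeq] at h1
    obtain ⟨y', hy', h2⟩ := h1
    have h2' : b * y' = c * y := h2
    have h3 : (c / b) * y = y' := by
      rw [div_mul_eq_mul_div, div_eq_iff hb, ← h2', mul_comm]
    rw [h3]
    exact hy'
  exact ht (alg_of_inv A ((Submodule.fg_iff_finiteDimensional A).mpr inferInstance) hA _ hinv)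

theorem d_step {w : ℕ} (hw : 1 ≤ w) :
    Module.finrank ℚ (Z 2 w) + 1 ≤ Module.finrank ℚ (Z 2 (w + 2)) := by
  have := fin_Z (N := 2) (by norm_num) (w + 2)
  have := fin_Z (N := 2) (by norm_num) w
  refine step_gen (Z 2 w) (Z 2 (w + 2)) (Z_ne_bot hw) (b := (Real.pi : ℂ) ^ 2)
    (c := (Real.log 2 : ℂ) ^ 2) (pow_ne_zero _ pi_ne) ?_ ?_ ?_
  · intro y hy
    rw [mul_comm]
    exact Z_mul (by norm_num) hy pi_mem
  · intro y hy
    rw [mul_comm, sq]
    exact Z_mul (by norm_num) hy (Z_mul (v := 1) (w := 1) (by norm_num) log_mem log_mem)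
  · have h := tau_transcendental.pow (n := 2) (by norm_num)
    rwa [tau, div_pow] at h

theorem growth (w : ℕ) (hw : 1 ≤ w) :
    FiniteDimensional ℚ (Z 2 w) ∧ w / 2 + 1 ≤ Module.finrank ℚ (Z 2 w) ∧
    Module.finrank ℚ (Z 2 w) ≤ Module.finrank ℚ (Z 2 (w + 1)) ∧
    Module.finrank ℚ (Z 2 w) + 1 ≤ Module.finrank ℚ (Z 2 (w + 2)) := by
  have := fin_Z (N := 2) (by norm_num) w
  refine ⟨inferInstance, ?_, d_mono w, d_step hw⟩
  have h := lower w hw
  rw [← Module.finrank_eq_rank] at h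
  exact_mod_cast h

end

end Pool.Agent.TH981.AMZ
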