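import Mathlib
import Pool.Agent.TH981.AMZ.CEv
import Pool.Agent.TH981.AMZ.Grow

/-!
Growth of `dim C w`.
-/

set_option autoImplicit false

open Filter Topology Finset

namespace Pool.Agent.TH981.AMZ

noncomputable section

/-- `π i / 3` -/
def ip : ℂ := ((Real.pi / 3 : ℝ) : ℂ) * Complex.I

theorem ip_ne : ip ≠ 0 := by
  rw [ip]
  refine mul_ne_zero ?_ Complex.I_ne_zero
  have : (Real.pi / 3 : ℝ) ≠ 0 := by positivity
  exact_mod_cast this

theorem one_sub_om : 1 - om = Complex.exp (-ip) := by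
  rw [om_eq, ip]
  have : -(((Real.pi / 3 : ℝ) : ℂ) * Complex.I) = ((-(Real.pi / 3) : ℝ) : ℂ) * Complex.I := by
    push_cast; ring
  rw [this, Complex.exp_mul_I, ← Complex.ofReal_cos, ← Complex.ofReal_sin, Real.cos_neg,
    Real.sin_neg, Real.cos_pi_div_three, Real.sin_pi_div_three]
  push_cast
  ring

theorem ip_im : (-ip).im = -(Real.pi / 3) := by
  rw [ip, Complex.neg_im, Complex.im_ofReal_mul, Complex.I_im, mul_one]

theorem log_one_sub_om : -Complex.log (1 - om) = ip := by
  have := Real.pi_pos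
  rw [one_sub_om, Complex.log_exp]
  · ring
  · rw [ip_im]; linarith
  · rw [ip_im]; linarith

theorem adm_om {a : ℕ} (ha : 0 < a) {l : List ℕ} (hl : ∀ b ∈ l, 0 < b) :
    Adm 6 (a + l.sum) ((a, om) :: l.map (fun b => (b, (1 : ℂ)))) := by
  refine ⟨by simp, ?_, ?_, ?_⟩
  · intro p hp
    rcases List.mem_cons.mp hp with rfl | hp
    · exact ⟨ha, om_pow⟩
    · obtain ⟨b, hb, rfl⟩ := List.mem_map.mp hp
      exact ⟨hl b hb, one_pow _⟩
  · simp only [List.map_cons, List.map_map, List.sum_cons]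
    congr 2
    have : (Prod.fst ∘ fun b : ℕ => (b, (1 : ℂ))) = id := by funext b; rfl
    rw [this, List.map_id]
  · intro h
    simp only [List.head?_cons, Option.some.injEq, Prod.mk.injEq] at h
    exact om_ne h.2

theorem C_le_Z (w : ℕ) : C w ≤ Z 6 w := by
  rw [C, Submodule.span_le]
  rintro y ⟨a, l, ha, hl, hs, hy⟩
  exact Submodule.subset_span ⟨_, hs ▸ adm_om ha hl, hy⟩

theorem fin_C (w : ℕ) : FiniteDimensional ℚ (C w) := by
  have := fin_Z (N := 6) (by norm_num) w
  exact Submodule.finiteDimensional_of_le (C_le_Z w)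

theorem lim_ip : Tendsto (liTrunc [(1, om)]) atTop (𝓝 ip) := by
  obtain ⟨y, hy⟩ := conv_adm (N := 6) (by norm_num) (adm_om (a := 1) one_pos (l := []) (by simp))
  change Tendsto (liTrunc [(1, om)]) atTop (𝓝 y) at hy
  suffices h : y = ip by rwa [h] at hy
  set f : ℕ → ℂ := fun n => om ^ n / (n : ℂ) with hf
  have h1 : Tendsto (fun n => ∑ i ∈ range n, f i) atTop (𝓝 y) := by
    rw [← tendsto_add_atTop_iff_nat 1]
    refine hy.congr (fun M => ?_)
    rw [sum_range_succ']
    simp [hf, liTrunc]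
  have h2 := Complex.tendsto_tsum_powerSeries_nhdsWithin_lt h1
  rw [tendsto_map'_iff] at h2
  have h3 : Tendsto (fun r : ℝ => -Complex.log (1 - om * (r : ℂ))) (𝓝[<] (1 : ℝ)) (𝓝 ip) := by
    have h4 : ContinuousAt (fun r : ℝ => -Complex.log (1 - om * (r : ℂ))) 1 := by
      apply ContinuousAt.neg
      apply ContinuousAt.clog
      · fun_prop
      · left
        rw [Complex.ofReal_one, mul_one, om_eq]
        simp
        norm_num
    have h5 := h4.tendsto
    have h6 : -Complex.log (1 - om * ((1 : ℝ) : ℂ)) = ip := by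
      rw [Complex.ofReal_one, mul_one, log_one_sub_om]
    rw [h6] at h5
    exact h5.mono_left nhdsWithin_le_nhds
  refine tendsto_nhds_unique h2 (h3.congr' ?_)
  have h7 : Set.Ioo (0 : ℝ) 1 ∈ 𝓝[<] (1 : ℝ) := Ioo_mem_nhdsLT (by norm_num)
  filter_upwards [h7] with r hr
  have h8 := Complex.hasSum_taylorSeries_neg_log (z := om * (r : ℂ)) (by
    rw [norm_mul, norm_om, one_mul, Complex.norm_real, Real.norm_eq_abs, abs_of_pos hr.1]
    exact hr.2)
  have h9 := h8.tsum_eq
  simp only [Function.comp_apply]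
  rw [← h9]
  apply tsum_congr
  intro n
  rw [hf]
  simp only
  rw [mul_pow]
  ring

theorem C_one : C 1 = Submodule.span ℚ {ip} := by
  rw [C]
  congr 1
  ext y
  constructor
  · rintro ⟨a, l, ha, hl, hs, hy⟩
    have hl0 : l = [] := by
      cases l with
      | nil => rfl
      | cons b l =>
        have := hl b (by simp)
        rw [List.sum_cons] at hs
        omega
    subst hl0
    have ha1 : a = 1 := by simpa using hs
    subst ha1
    exact tendsto_nhds_unique hy lim_ip
  · rintro rfl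
    exact ⟨1, [], one_pos, by simp, by simp, lim_ip⟩

theorem ip_mem : ip ∈ C 1 := by
  rw [C_one]
  exact Submodule.mem_span_singleton_self _

theorem dim_one : Module.finrank ℚ (C 1) = 1 := by
  rw [C_one]
  exact finrank_span_singleton ip_ne

theorem exists_lim (a : ℕ) (ha : 0 < a) (l : List ℕ) (hl : ∀ b ∈ l, 0 < b) :
    ∃ y, Tendsto (liTrunc ((a, om) :: l.map (fun b => (b, (1 : ℂ))))) atTop (𝓝 y) := by
  obtain ⟨y, hy⟩ := conv_adm (N := 6) (by norm_num) (adm_om ha hl)
  exact ⟨y, hy⟩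

theorem dim_two_le : Module.finrank ℚ (C 2) ≤ 2 := by
  obtain ⟨u, hu⟩ := exists_lim 2 (by norm_num) [] (by simp)
  obtain ⟨v, hv⟩ := exists_lim 1 (by norm_num) [1] (by simp)
  have hle : C 2 ≤ Submodule.span ℚ (Set.range ![u, v]) := by
    rw [C, Submodule.span_le]
    rintro y ⟨a, l, ha, hl, hs, hy⟩
    cases l with
    | nil =>
      have ha1 : a = 2 := by simpa using hs
      subst ha1
      refine Submodule.subset_span ⟨0, ?_⟩
      exact tendsto_nhds_unique hu hy
    | cons b l =>
      have hb := hl b (by simp)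
      rw [List.sum_cons] at hs
      have hl0 : l = [] := by
        cases l with
        | nil => rfl
        | cons c l =>
          have := hl c (by simp)
          rw [List.sum_cons] at hs
          omega
      subst hl0
      rw [List.sum_nil] at hs
      have ha1 : a = 1 := by omega
      have hb1 : b = 1 := by omega
      subst ha1
      subst hb1
      refine Submodule.subset_span ⟨1, ?_⟩
      exact tendsto_nhds_unique hv hy
  have h1 := finrank_range_le_card (R := ℚ) ![u, v]
  have : FiniteDimensional ℚ (Submodule.span ℚ (Set.range ![u, v])) :=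
    FiniteDimensional.span_of_finite ℚ (Set.finite_range _)
  have h2 := Submodule.finrank_mono hle
  rw [Fintype.card_fin] at h1
  exact h2.trans h1

theorem im_two {y : ℂ} (hy : Tendsto (liTrunc [(2, om)]) atTop (𝓝 y)) : 0 < y.im := by
  have h1 : Tendsto (fun M => (liTrunc [(2, om)] M).im) atTop (𝓝 y.im) :=
    (Complex.continuous_im.tendsto _).comp hy
  have hs : ∀ M : ℕ, ∑ k ∈ range M, (1 : ℝ) / ((k + 1 : ℕ) : ℝ) ^ 2 ≤ Real.pi ^ 2 / 6 := by
    intro M
    have h := sum_le_hasSum (range (M + 1)) (fun n _ => by positivity) hasSum_zeta_two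
    rw [sum_range_succ'] at h
    simpa using h
  have h2 : ∀ M : ℕ, Real.sqrt 3 / 2 + 1 - Real.pi ^ 2 / 6 ≤ (liTrunc [(2, om)] (M + 1)).im := by
    intro M
    have h3 : (liTrunc [(2, om)] (M + 1)).im =
        (∑ k ∈ range M, (om ^ (k + 1 + 1) / ((k + 1 + 1 : ℕ) : ℂ) ^ 2).im) + Real.sqrt 3 / 2 := by
      rw [liTrunc, Complex.im_sum, sum_range_succ']
      congr 1
      · apply sum_congr rfl
        intro k _
        rw [liTrunc, mul_one]
      · rw [liTrunc, om_eq]
        simp
    have h4 : -(∑ k ∈ range M, (1 : ℝ) / ((k + 1 + 1 : ℕ) : ℝ) ^ 2) ≤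
        ∑ k ∈ range M, (om ^ (k + 1 + 1) / ((k + 1 + 1 : ℕ) : ℂ) ^ 2).im := by
      rw [← sum_neg_distrib]
      apply sum_le_sum
      intro k _
      have h5 := Complex.abs_im_le_norm (om ^ (k + 1 + 1) / ((k + 1 + 1 : ℕ) : ℂ) ^ 2)
      rw [norm_div, norm_pow, norm_pow, norm_om, one_pow, Complex.norm_natCast] at h5
      linarith [(abs_le.mp h5).1]
    have h6 := hs (M + 1)
    rw [sum_range_succ'] at h6
    have h7 : (1 : ℝ) / ((0 + 1 : ℕ) : ℝ) ^ 2 = 1 := by norm_num
    rw [h7] at h6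
    rw [h3]
    linarith
  have h7 := ge_of_tendsto ((tendsto_add_atTop_iff_nat 1).mpr h1)
    (Eventually.of_forall h2)
  have h8 : (1.7 : ℝ) ≤ Real.sqrt 3 := by
    apply Real.le_sqrt_of_sq_le
    norm_num
  have h9 := Real.pi_lt_d2
  have h10 := Real.pi_pos
  nlinarith

theorem ip_sq : ip * ip = ((-(Real.pi / 3) ^ 2 : ℝ) : ℂ) := by
  rw [ip, mul_mul_mul_comm, Complex.I_mul_I]
  push_cast
  ring

theorem im_comb (s t : ℚ) (r : ℝ) (u : ℂ) :
    ((s : ℂ) * (r : ℂ) + (t : ℂ) * u).im = (t : ℝ) * u.im := by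
  have e3 : (s : ℂ) = ((s : ℝ) : ℂ) := by push_cast; rfl
  have e4 : (t : ℂ) = ((t : ℝ) : ℂ) := by push_cast; rfl
  rw [e3, e4, Complex.add_im, ← Complex.ofReal_mul, Complex.ofReal_im, Complex.im_ofReal_mul,
    zero_add]

theorem ind_pair {u : ℂ} (him : 0 < u.im) : LinearIndependent ℚ ![ip * ip, u] := by
  rw [LinearIndependent.pair_iff]
  intro s t hst
  have h2 := congrArg Complex.im hst
  rw [Rat.smul_def, Rat.smul_def, ip_sq, im_comb, Complex.zero_im] at h2
  have ht : t = 0 := by
    rcases mul_eq_zero.mp h2 with h | h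
    · exact_mod_cast h
    · exact absurd h him.ne'
  refine ⟨?_, ht⟩
  rw [ht, zero_smul, add_zero, Rat.smul_def] at hst
  rcases mul_eq_zero.mp hst with h | h
  · exact_mod_cast h
  · exact absurd h (mul_ne_zero ip_ne ip_ne)

theorem dim_two : Module.finrank ℚ (C 2) = 2 := by
  apply le_antisymm dim_two_le
  obtain ⟨u, hu⟩ := exists_lim 2 (by norm_num) [] (by simp)
  have him := im_two hu
  have hu' : u ∈ C 2 := Submodule.subset_span ⟨2, [], by norm_num, by simp, by simp, hu⟩
  have hv' : ip * ip ∈ C (1 + 1) := C_mul (v := 1) (w := 1) le_rfl ip_mem ip_mem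
  have := fin_C 2
  have h1 := finrank_span_eq_card (ind_pair him)
  have h2 : Submodule.span ℚ (Set.range ![ip * ip, u]) ≤ C 2 := by
    rw [Submodule.span_le]
    rintro _ ⟨i, rfl⟩
    fin_cases i
    · exact hv'
    · exact hu'
  have h3 := Submodule.finrank_mono h2
  rw [h1, Fintype.card_fin] at h3
  exact h3

theorem ip_pow_mem {w : ℕ} (hw : 1 ≤ w) : ip ^ w ∈ C w := by
  induction w with
  | zero => omega
  | succ w ih =>
    rcases Nat.eq_zero_or_pos w with rfl | h
    · simpa using ip_mem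
    · rw [pow_succ]
      exact C_mul h (ih h) ip_mem

theorem C_mono (w : ℕ) : Module.finrank ℚ (C w) ≤ Module.finrank ℚ (C (w + 1)) := by
  have := fin_C (w + 1)
  have h : ∀ y ∈ C w, LinearMap.mulLeft ℚ ip y ∈ C (w + 1) := by
    intro y hy
    rw [LinearMap.mulLeft_apply, add_comm]
    exact C_mul le_rfl ip_mem hy
  refine LinearMap.finrank_le_finrank_of_injective
    (f := (LinearMap.mulLeft ℚ ip).restrict h) ?_
  intro a b hab
  have := congrArg Subtype.val hab
  simp only [LinearMap.coe_restrict_apply, LinearMap.mulLeft_apply] at this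
  exact Subtype.ext (mul_left_cancel₀ ip_ne this)

theorem C_ne_bot {w : ℕ} (hw : 1 ≤ w) : C w ≠ ⊥ := by
  intro h0
  have h := ip_pow_mem hw
  rw [h0, Submodule.mem_bot] at h
  exact pow_ne_zero _ ip_ne h

theorem two_le {w : ℕ} (hw : 2 ≤ w) : 2 ≤ Module.finrank ℚ (C w) := by
  induction w, hw using Nat.le_induction with
  | base => exact dim_two.ge
  | succ w _ ih => exact ih.trans (C_mono w)

end

end Pool.Agent.TH981.AMZ
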