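import Mathlib
import Pool.Agent.TH981.AMZ.CGrow

/-!
The dichotomy for `dim C w`.
-/

set_option autoImplicit false

open Filter Topology Finset

namespace Pool.Agent.TH981.AMZ

noncomputable section

/-- `(π i / 3)^(-w) C_w` -/
def D (w : ℕ) : Submodule ℚ ℂ := (C w).map (LinearMap.mulLeft ℚ (ip ^ w)⁻¹)

theorem mem_D {w : ℕ} {y : ℂ} : y ∈ D w ↔ ip ^ w * y ∈ C w := by
  have h0 : ip ^ w ≠ 0 := pow_ne_zero _ ip_ne
  constructor
  · rintro ⟨z, hz, rfl⟩
    rw [LinearMap.mulLeft_apply, ← mul_assoc, mul_inv_cancel₀ h0, one_mul]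
    exact hz
  · intro h
    refine ⟨_, h, ?_⟩
    rw [LinearMap.mulLeft_apply, ← mul_assoc, inv_mul_cancel₀ h0, one_mul]

theorem fin_D (w : ℕ) : FiniteDimensional ℚ (D w) := by
  have := fin_C w
  unfold D
  infer_instance

theorem rank_D (w : ℕ) : Module.finrank ℚ (D w) = Module.finrank ℚ (C w) := by
  refine (Submodule.equivMapOfInjective _ ?_ (C w)).finrank_eq.symm
  intro u v huv
  exact mul_left_cancel₀ (inv_ne_zero (pow_ne_zero _ ip_ne)) huv

theorem D_succ (w : ℕ) : D w ≤ D (w + 1) := by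
  intro y hy
  rw [mem_D] at hy ⊢
  have h := C_mul le_rfl ip_mem hy
  rw [add_comm] at h
  rw [pow_succ']
  rwa [mul_assoc]

theorem D_mono {v w : ℕ} (h : v ≤ w) : D v ≤ D w :=
  monotone_nat_of_le_succ D_succ h

theorem D_mul {v w : ℕ} (hv : 1 ≤ v) {y z : ℂ} (hy : y ∈ D v) (hz : z ∈ D w) :
    y * z ∈ D (v + w) := by
  rw [mem_D] at hy hz ⊢
  have h := C_mul hv hy hz
  rw [pow_add]
  have e : ip ^ v * ip ^ w * (y * z) = ip ^ v * y * (ip ^ w * z) := by ring
  rwa [e]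

theorem one_mem_D {w : ℕ} (hw : 1 ≤ w) : (1 : ℂ) ∈ D w := by
  rw [mem_D, mul_one]
  exact ip_pow_mem hw

/-- the field in the bounded case -/
theorem field_of_stable {w₀ : ℕ} (hw : 1 ≤ w₀) (hst : ∀ w, w₀ ≤ w → D w = D w₀) :
    ∃ K : IntermediateField ℚ ℂ, FiniteDimensional ℚ K ∧ ∀ y, y ∈ K ↔ y ∈ D w₀ := by
  have hmul : ∀ y ∈ D w₀, ∀ z ∈ D w₀, y * z ∈ D w₀ := by
    intro y hy z hz
    have h := D_mul hw hy hz
    rwa [hst (w₀ + w₀) (by omega)] at h
  have h1 := one_mem_D hw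
  have := fin_D w₀
  have halg : ∀ y ∈ D w₀, IsAlgebraic ℚ y := by
    intro y hy
    refine alg_of_inv (D w₀) ((Submodule.fg_iff_finiteDimensional _).mpr inferInstance) ?_ y
      (fun z hz => hmul y hy z hz)
    intro h0
    rw [h0, Submodule.mem_bot] at h1
    exact one_ne_zero h1
  let S : Subalgebra ℚ ℂ :=
    { carrier := D w₀
      mul_mem' := fun {a b} ha hb => hmul a ha b hb
      add_mem' := fun {a b} ha hb => add_mem ha hb
      algebraMap_mem' := fun q => by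
        have := (D w₀).smul_mem q h1
        rwa [Algebra.smul_def, mul_one] at this }
  have hS : ∀ y, y ∈ S ↔ y ∈ D w₀ := fun y => Iff.rfl
  let K : IntermediateField ℚ ℂ := S.toIntermediateField (by
    intro x hx
    exact S.inv_mem_of_algebraic (x := ⟨x, hx⟩) (halg x hx))
  have hK : ∀ y, y ∈ K ↔ y ∈ D w₀ := fun y => Iff.rfl
  refine ⟨K, ?_, hK⟩
  let φ : K →ₗ[ℚ] D w₀ :=
    { toFun := fun y => ⟨y.1, (hK _).mp y.2⟩
      map_add' := fun _ _ => rfl
      map_smul' := fun _ _ => rfl }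
  exact FiniteDimensional.of_injective φ (fun a b hab => by
    have := congrArg Subtype.val hab
    exact Subtype.ext this)

theorem dichotomy : (∀ B : ℕ, ∃ w, B ≤ Module.finrank ℚ (C w)) ∨
    ∃ w₀, 1 ≤ w₀ ∧ (∀ w, w₀ ≤ w → D w = D w₀) := by
  by_contra hcon
  push Not at hcon
  obtain ⟨⟨B, hB⟩, h2⟩ := hcon
  have h3 : ∀ n : ℕ, ∃ w, 1 ≤ w ∧ n ≤ Module.finrank ℚ (C w) := by
    intro n
    induction n with
    | zero => exact ⟨1, le_rfl, Nat.zero_le _⟩
    | succ n ih =>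
      obtain ⟨w, hw, hn⟩ := ih
      obtain ⟨v, hv, hne⟩ := h2 w hw
      refine ⟨v, by omega, ?_⟩
      have := fin_D v
      have h4 := D_mono hv
      have h5 := Submodule.finrank_lt_finrank_of_lt (lt_of_le_of_ne h4 hne.symm)
      rw [rank_D, rank_D] at h5
      omega
  obtain ⟨w, _, hw⟩ := h3 B
  exact absurd (hB w) (by omega)

theorem linear_growth {k : ℕ} (hk : 1 ≤ k) {y : ℂ} (hy : y ∈ C k)
    (ht : Transcendental ℚ (y / (Real.pi : ℂ) ^ k)) (w : ℕ) (hw : 1 ≤ w) :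
    Module.finrank ℚ (C w) + 1 ≤ Module.finrank ℚ (C (w + k)) := by
  have := fin_C w
  have := fin_C (w + k)
  refine step_gen (C w) (C (w + k)) (C_ne_bot hw) (b := ip ^ k) (c := y)
    (pow_ne_zero _ ip_ne) ?_ ?_ ?_
  · intro z hz
    rw [add_comm]
    exact C_mul hk (ip_pow_mem hk) hz
  · intro z hz
    rw [add_comm]
    exact C_mul hk hy hz
  · intro halg
    apply ht
    have hI : IsAlgebraic ℚ Complex.I := by
      refine ⟨Polynomial.X ^ 2 + 1, ?_, ?_⟩
      · intro h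
        have := congrArg (Polynomial.eval 0) h
        simp at this
      · simp
    have h3 : IsAlgebraic ℚ ((1 / 3 : ℚ) : ℂ) := isAlgebraic_algebraMap (R := ℚ) (A := ℂ) (1 / 3 : ℚ)
    have e : y / (Real.pi : ℂ) ^ k = y / ip ^ k * (((1 / 3 : ℚ) : ℂ) * Complex.I) ^ k := by
      have e2 : ip = (Real.pi : ℂ) * (((1 / 3 : ℚ) : ℂ) * Complex.I) := by
        rw [ip]; push_cast; ring
      have h4 : (((1 / 3 : ℚ) : ℂ) * Complex.I) ≠ 0 :=
        mul_ne_zero (by norm_num) Complex.I_ne_zero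
      rw [e2, mul_pow, div_mul_eq_mul_div, mul_div_mul_right _ _ (pow_ne_zero _ h4)]
    rw [e]
    exact halg.mul ((h3.mul hI).pow k)

end

end Pool.Agent.TH981.AMZ
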