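import Mathlib
import Pool.Agent.TH981.AMZ.CDich

/-!
`ζ(2k+1)` lies in `C (2k+1)`.
-/

set_option autoImplicit false

open Filter Topology Finset

namespace Pool.Agent.TH981.AMZ

noncomputable section

theorem hasSum_mult {s d : ℕ} (hs : 1 < s) (hd : 0 < d) :
    HasSum (fun n : ℕ => if d ∣ n then 1 / (n : ℝ) ^ s else 0)
      ((∑' n : ℕ, 1 / (n : ℝ) ^ s) / (d : ℝ) ^ s) := by
  have hsum : Summable (fun n : ℕ => 1 / (n : ℝ) ^ s) := Real.summable_one_div_nat_pow.mpr hs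
  have hinj : Function.Injective (fun m : ℕ => d * m) :=
    fun a b h => Nat.eq_of_mul_eq_mul_left hd h
  rw [← hinj.hasSum_iff]
  · have h := hsum.hasSum.div_const ((d : ℝ) ^ s)
    have e : ((fun n : ℕ => if d ∣ n then 1 / (n : ℝ) ^ s else 0) ∘ fun m : ℕ => d * m) =
        fun m : ℕ => 1 / (m : ℝ) ^ s / (d : ℝ) ^ s := by
      funext m
      simp only [Function.comp_apply, dvd_mul_right, if_true]
      rw [Nat.cast_mul, mul_pow, div_div, mul_comm]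
    rw [e]
    exact h
  · intro n hn
    rw [if_neg]
    rintro ⟨m, rfl⟩
    exact hn ⟨m, rfl⟩

theorem om_re_im (n : ℕ) : om ^ n = (Real.cos (2 * Real.pi * n * (1 / 6)) : ℂ) +
    (Real.sin (2 * Real.pi * n * (1 / 6)) : ℂ) * Complex.I := by
  rw [om, ← Complex.exp_nat_mul]
  have : (n : ℂ) * (((Real.pi / 3 : ℝ) : ℂ) * Complex.I) =
      ((2 * Real.pi * n * (1 / 6) : ℝ) : ℂ) * Complex.I := by
    push_cast; ring
  rw [this, Complex.exp_mul_I, Complex.ofReal_cos, Complex.ofReal_sin]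

theorem om_im (n : ℕ) : (om ^ n).im = Real.sin (2 * Real.pi * n * (1 / 6)) := by
  rw [om_re_im, Complex.add_im, Complex.ofReal_im, Complex.im_ofReal_mul, Complex.I_im, mul_one,
    zero_add]

theorem om_sq : om ^ 2 = om - 1 := by
  rw [om_eq]
  have h : ((Real.sqrt 3 : ℝ) : ℂ) ^ 2 = 3 := by
    rw [← Complex.ofReal_pow, Real.sq_sqrt (by norm_num)]
    norm_num
  push_cast
  linear_combination (1 / 4 : ℂ) * Complex.I ^ 2 * h + (3 / 4 : ℂ) * Complex.I_sq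

theorem om_re : om.re = 1 / 2 := by
  rw [om_eq]
  simp

theorem re_om (n : ℕ) : (om ^ n).re = 1 / 2 - (if 2 ∣ n then 1 else 0)
    - (3 / 2) * (if 3 ∣ n then 1 else 0) + 3 * (if 6 ∣ n then 1 else 0) := by
  have h : om ^ n = om ^ (n % 6) := by
    conv_lhs => rw [← Nat.div_add_mod n 6, pow_add, pow_mul, om_pow, one_pow, one_mul]
  have h2 : 2 ∣ n ↔ 2 ∣ n % 6 := by omega
  have h3 : 3 ∣ n ↔ 3 ∣ n % 6 := by omega
  have h6 : 6 ∣ n ↔ 6 ∣ n % 6 := by omega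
  have hlt : n % 6 < 6 := Nat.mod_lt _ (by norm_num)
  have e3 : om ^ 3 = -1 := by
    rw [pow_succ, om_sq, sub_mul, ← sq, om_sq]; ring
  have e4 : om ^ 4 = -om := by rw [pow_succ, e3]; ring
  have e5 : om ^ 5 = 1 - om := by rw [pow_succ, e4, neg_mul, ← sq, om_sq]; ring
  rw [h]
  simp only [h2, h3, h6]
  generalize n % 6 = r at hlt
  interval_cases r
  · norm_num
  · norm_num [om_re]
  · rw [om_sq, Complex.sub_re, om_re]; norm_num
  · rw [e3]; norm_num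
  · rw [e4, Complex.neg_re, om_re]; norm_num
  · rw [e5, Complex.sub_re, om_re]; norm_num

/-- the rational factor -/
def qs (s : ℕ) : ℚ := 1 / 2 - 1 / 2 ^ s - (3 / 2) / 3 ^ s + 3 / 6 ^ s

theorem qs_pos {s : ℕ} (hs : 3 ≤ s) : 0 < qs s := by
  have h2 : (1 : ℚ) / 2 ^ s ≤ 1 / 2 ^ 3 :=
    one_div_le_one_div_of_le (by norm_num) (pow_le_pow_right₀ (by norm_num) hs)
  have h3 : (1 : ℚ) / 3 ^ s ≤ 1 / 3 ^ 3 :=
    one_div_le_one_div_of_le (by norm_num) (pow_le_pow_right₀ (by norm_num) hs)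
  have h6 : (0 : ℚ) < 3 / 6 ^ s := by positivity
  have e : (3 / 2 : ℚ) / 3 ^ s = (3 / 2) * (1 / 3 ^ s) := by ring
  rw [qs, e]
  norm_num at h2 h3 ⊢
  linarith

theorem hasSum_re {s : ℕ} (hs : 1 < s) :
    HasSum (fun n : ℕ => (om ^ n).re / (n : ℝ) ^ s)
      ((qs s : ℝ) * ∑' n : ℕ, 1 / (n : ℝ) ^ s) := by
  have h1 := (hasSum_mult hs one_pos).mul_left (1 / 2)
  have h2 := hasSum_mult hs (d := 2) (by norm_num)
  have h3 := (hasSum_mult hs (d := 3) (by norm_num)).mul_left (3 / 2)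
  have h6 := (hasSum_mult hs (d := 6) (by norm_num)).mul_left 3
  have h := ((h1.sub h2).sub h3).add h6
  have e1 : (fun n : ℕ => (om ^ n).re / (n : ℝ) ^ s) = fun n : ℕ =>
      (1 / 2 * (if 1 ∣ n then 1 / (n : ℝ) ^ s else 0) - (if 2 ∣ n then 1 / (n : ℝ) ^ s else 0) -
      3 / 2 * (if 3 ∣ n then 1 / (n : ℝ) ^ s else 0)) +
      3 * (if 6 ∣ n then 1 / (n : ℝ) ^ s else 0) := by
    funext n
    rw [re_om]
    simp only [one_dvd, if_true]
    split_ifs <;> ring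
  have e2 : (qs s : ℝ) * ∑' n : ℕ, 1 / (n : ℝ) ^ s =
      (1 / 2 * ((∑' n : ℕ, 1 / (n : ℝ) ^ s) / ((1 : ℕ) : ℝ) ^ s) -
      (∑' n : ℕ, 1 / (n : ℝ) ^ s) / ((2 : ℕ) : ℝ) ^ s -
      3 / 2 * ((∑' n : ℕ, 1 / (n : ℝ) ^ s) / ((3 : ℕ) : ℝ) ^ s)) +
      3 * ((∑' n : ℕ, 1 / (n : ℝ) ^ s) / ((6 : ℕ) : ℝ) ^ s) := by
    simp only [qs]
    push_cast
    ring
  rw [e1, e2]
  exact h

theorem im_lim {k : ℕ} (hk : k ≠ 0) {y : ℂ}
    (hy : Tendsto (liTrunc [(2 * k + 1, om)]) atTop (𝓝 y)) :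
    ∃ B : ℚ, y.im = (B : ℝ) * Real.pi ^ (2 * k + 1) := by
  have h := hasSum_one_div_nat_pow_mul_sin hk (x := 1 / 6) (by constructor <;> norm_num)
  have h1 : Tendsto (fun M => (liTrunc [(2 * k + 1, om)] M).im) atTop (𝓝 y.im) :=
    (Complex.continuous_im.tendsto _).comp hy
  have h2 := h.tendsto_sum_nat
  rw [← tendsto_add_atTop_iff_nat 1] at h2
  have e : ∀ M, (liTrunc [(2 * k + 1, om)] M).im = ∑ i ∈ range (M + 1),
      1 / (i : ℝ) ^ (2 * k + 1) * Real.sin (2 * Real.pi * i * (1 / 6)) := by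
    intro M
    rw [sum_range_succ', liTrunc, Complex.im_sum]
    simp only [liTrunc, mul_one]
    have e0 : (1 : ℝ) / ((0 : ℕ) : ℝ) ^ (2 * k + 1) *
        Real.sin (2 * Real.pi * ((0 : ℕ) : ℝ) * (1 / 6)) = 0 := by simp
    rw [e0, add_zero]
    apply sum_congr rfl
    intro i _
    have e1 : (((i + 1 : ℕ) : ℂ)) ^ (2 * k + 1) = (((((i + 1 : ℕ) : ℝ)) ^ (2 * k + 1) : ℝ) : ℂ) := by
      push_cast; rfl
    rw [e1, Complex.div_ofReal_im, om_im]
    ring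
  have h3 := tendsto_nhds_unique h1 (h2.congr (fun M => (e M).symm))
  refine ⟨(-1) ^ (k + 1) * 2 ^ (2 * k + 1) / 2 / (2 * k + 1).factorial *
    (Polynomial.bernoulli (2 * k + 1)).eval (1 / 6), ?_⟩
  rw [h3]
  have e2 : ((Polynomial.bernoulli (2 * k + 1)).map (algebraMap ℚ ℝ)).eval (1 / 6 : ℝ) =
      (((Polynomial.bernoulli (2 * k + 1)).eval (1 / 6) : ℚ) : ℝ) := by
    have e3 : (1 / 6 : ℝ) = algebraMap ℚ ℝ (1 / 6) := by norm_num
    rw [e3, Polynomial.eval_map, Polynomial.eval₂_at_apply]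
    rfl
  rw [e2]
  push_cast
  ring

theorem re_lim {s : ℕ} (hs : 1 < s) {y : ℂ} (hy : Tendsto (liTrunc [(s, om)]) atTop (𝓝 y)) :
    y.re = (qs s : ℝ) * ∑' n : ℕ, 1 / (n : ℝ) ^ s := by
  have h := hasSum_re hs
  have h1 : Tendsto (fun M => (liTrunc [(s, om)] M).re) atTop (𝓝 y.re) :=
    (Complex.continuous_re.tendsto _).comp hy
  have h2 := h.tendsto_sum_nat
  rw [← tendsto_add_atTop_iff_nat 1] at h2
  have e : ∀ M, (liTrunc [(s, om)] M).re = ∑ i ∈ range (M + 1), (om ^ i).re / (i : ℝ) ^ s := by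
    intro M
    rw [sum_range_succ', liTrunc, Complex.re_sum]
    simp only [liTrunc, mul_one]
    have e0 : (om ^ 0).re / ((0 : ℕ) : ℝ) ^ s = 0 := by
      have : ((0 : ℕ) : ℝ) ^ s = 0 := by
        rw [Nat.cast_zero]; exact zero_pow (by omega)
      rw [this, div_zero]
    rw [e0, add_zero]
    apply sum_congr rfl
    intro i _
    have e1 : (((i + 1 : ℕ) : ℂ)) ^ s = (((((i + 1 : ℕ) : ℝ)) ^ s : ℝ) : ℂ) := by
      push_cast; rfl
    rw [e1, Complex.div_ofReal_re]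
  exact tendsto_nhds_unique h1 (h2.congr (fun M => (e M).symm))

theorem zeta_mem {k : ℕ} (hk : 1 ≤ k) : riemannZeta ((2 * k + 1 : ℕ) : ℂ) ∈ C (2 * k + 1) := by
  obtain ⟨y, hy⟩ := exists_lim (2 * k + 1) (by omega) [] (by simp)
  have hy' : y ∈ C (2 * k + 1) :=
    Submodule.subset_span ⟨2 * k + 1, [], by omega, by simp, by simp, hy⟩
  change Tendsto (liTrunc [(2 * k + 1, om)]) atTop (𝓝 y) at hy
  obtain ⟨B, hB⟩ := im_lim (by omega) hy
  have hre := re_lim (by omega) hy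
  have hq := qs_pos (s := 2 * k + 1) (by omega)
  have hz : riemannZeta ((2 * k + 1 : ℕ) : ℂ) =
      ((∑' n : ℕ, 1 / (n : ℝ) ^ (2 * k + 1) : ℝ) : ℂ) := by
    rw [zeta_nat_eq_tsum_of_gt_one (by omega), Complex.ofReal_tsum]
    apply tsum_congr
    intro n
    push_cast
    rfl
  have hI : Complex.I ^ (2 * k + 1) = (-1) ^ k * Complex.I := by
    rw [pow_succ, pow_mul, Complex.I_sq]
  have hm : ((-1 : ℂ) ^ k) * (-1) ^ k = 1 := by
    rw [← mul_pow]; norm_num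
  have e : riemannZeta ((2 * k + 1 : ℕ) : ℂ) = (qs (2 * k + 1))⁻¹ •
      (y - (B * (-1) ^ k * 3 ^ (2 * k + 1)) • ip ^ (2 * k + 1)) := by
    rw [hz, Rat.smul_def, Rat.smul_def, Rat.cast_inv]
    rw [eq_inv_mul_iff_mul_eq₀ (by exact_mod_cast hq.ne')]
    have h1 : (((qs (2 * k + 1) : ℚ) : ℂ)) * ((∑' n : ℕ, 1 / (n : ℝ) ^ (2 * k + 1) : ℝ) : ℂ) =
        (y.re : ℂ) := by
      rw [hre]; push_cast; rfl
    rw [h1]
    have h2 : ((B * (-1) ^ k * 3 ^ (2 * k + 1) : ℚ) : ℂ) * ip ^ (2 * k + 1) =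
        (y.im : ℂ) * Complex.I := by
      rw [hB, ip, mul_pow, hI]
      push_cast
      rw [div_pow]
      have h3 : (3 : ℂ) ^ (2 * k + 1) ≠ 0 := pow_ne_zero _ (by norm_num)
      field_simp
      linear_combination (B : ℂ) * hm
    rw [h2]
    linear_combination Complex.re_add_im y
  rw [e]
  exact Submodule.smul_mem _ _ (sub_mem hy' (Submodule.smul_mem _ _ (ip_pow_mem (by omega))))

end

end Pool.Agent.TH981.AMZ
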